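import Mathlib

/-!
# Nondeterministic circuits with few negations

Boolean circuits with the gates AND, OR (fan-in two) and NOT, with input bits and witness bits;
monotone straight-line programs; the graph properties `clq` (there is a clique of size `k`) and
`nis` (there is no independent set of size `k`).
-/

set_option autoImplicit false

namespace Pool.Agent.NegLim

/-! ### nondeterministic circuits -/

/-- A wire of a nondeterministic circuit with the input bits `x e`, `e : E`, with `s` witness bits
`u` and `t` witness bits `w`: an input bit, any Boolean function of the witness bits (these
functions, in particular the negated witness bits and the constants, are free), or the output of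
the gate number `n`. -/
inductive Wire (E : Type) (s t : ℕ) where
  | inp (e : E)
  | wit (φ : (Fin s → Bool) → (Fin t → Bool) → Bool)
  | gate (n : ℕ)

/-- The gates. -/
inductive Gate (E : Type) (s t : ℕ) where
  | and (a b : Wire E s t)
  | or (a b : Wire E s t)
  | not (a : Wire E s t)

variable {E : Type} {s t : ℕ}

/-- The value of a wire on the input `x` with the witness `(u, w)`; `l` is the list of the values of
the earlier gates (a wire that refers to a gate which does not come earlier carries `false`). -/
def Wire.val (x : E → Bool) (u : Fin s → Bool) (w : Fin t → Bool) (l : List Bool) :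
    Wire E s t → Bool
  | Wire.inp e => x e
  | Wire.wit φ => φ u w
  | Wire.gate n => l.getD n false

/-- The output of a gate; `l` is the list of the values of the earlier gates. -/
def Gate.val (x : E → Bool) (u : Fin s → Bool) (w : Fin t → Bool) (l : List Bool) :
    Gate E s t → Bool
  | Gate.and a b => a.val x u w l && b.val x u w l
  | Gate.or a b => a.val x u w l || b.val x u w l
  | Gate.not a => !(a.val x u w l)

/-- The list of the outputs of the gates number `0, 1, 2, …` -/
def vals (C : List (Gate E s t)) (x : E → Bool) (u : Fin s → Bool) (w : Fin t → Bool) :
    List Bool :=
  C.foldl (fun l g => l ++ [g.val x u w l]) []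

/-- Is the gate a NOT gate? -/
def Gate.isNot : Gate E s t → Bool
  | Gate.not _ => true
  | _ => false

/-- A nondeterministic circuit: the list of its gates and the output wire. -/
structure NCirc (E : Type) (s t : ℕ) where
  gates : List (Gate E s t)
  out : Wire E s t

/-- The circuit accepts the input `x` if the output is `true` for some witness `(u, w)`. -/
def NCirc.Acc (C : NCirc E s t) (x : E → Bool) : Prop :=
  ∃ u w, C.out.val x u w (vals C.gates x u w) = true

/-- The number of the NOT gates. -/
def NCirc.nots (C : NCirc E s t) : ℕ := C.gates.countP Gate.isNot

/-- The outputs of the NOT gates do not depend on the witness bits `w` (they may depend on the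
input bits and on the witness bits `u`). -/
def NCirc.NotsFree (C : NCirc E s t) : Prop :=
  ∀ n : ℕ, (∃ a, C.gates[n]? = some (Gate.not a)) → ∀ x u w w',
    (vals C.gates x u w)[n]? = (vals C.gates x u w')[n]?

/-! ### monotone straight-line programs -/

/-- `f` is a variable, a constant or one of the functions in the list `L`. -/
def Avail {V : Type} (L : List ((V → Bool) → Bool)) (f : (V → Bool) → Bool) : Prop :=
  f ∈ L ∨ (∃ i, f = fun x => x i) ∨ ∃ b, f = fun _ => b

/-- A monotone straight-line program (the last function comes first): every function in the list is
the conjunction or the disjunction of two functions which are variables, constants or functions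
computed before. -/
inductive Mon {V : Type} : List ((V → Bool) → Bool) → Prop
  | nil : Mon []
  | and {L : List ((V → Bool) → Bool)} {f g : (V → Bool) → Bool} :
      Mon L → Avail L f → Avail L g → Mon ((fun x => f x && g x) :: L)
  | or {L : List ((V → Bool) → Bool)} {f g : (V → Bool) → Bool} :
      Mon L → Avail L f → Avail L g → Mon ((fun x => f x || g x) :: L)

/-- `f` has a monotone circuit with at most `T` gates. -/
def MonSize {V : Type} (f : (V → Bool) → Bool) (T : ℕ) : Prop :=
  ∃ L, Mon L ∧ L.length ≤ T ∧ Avail L f

/-! ### graphs -/

/-- The edges of the complete graph on `n` vertices. -/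
abbrev Edge (n : ℕ) : Type := {e : Fin n × Fin n // e.1 < e.2}

open Classical in
/-- The graph with the edges `x` has a clique of size `k`. -/
noncomputable def clq (n k : ℕ) (x : Edge n → Bool) : Bool :=
  decide (∃ S : Finset (Fin n), S.card = k ∧ ∀ e : Edge n, e.1.1 ∈ S → e.1.2 ∈ S → x e = true)

open Classical in
/-- The graph with the edges `x` has no independent set of size `k`. -/
noncomputable def nis (n k : ℕ) (x : Edge n → Bool) : Bool :=
  decide (∀ S : Finset (Fin n), S.card = k → ∃ e : Edge n, e.1.1 ∈ S ∧ e.1.2 ∈ S ∧ x e = true)

end Pool.Agent.NegLim
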