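import Pool.Agent.NegLim.Prog

/-!
The transfer theorems: a nondeterministic circuit with few NOT gates for the conjunction
(disjunction) of many functions of disjoint sets of variables gives monotone circuits for almost
all of them.
-/

set_option autoImplicit false

namespace Pool.Agent.NegLim

open Finset

variable {E ι : Type} {s t : ℕ}

lemma greedy {α : Type} [DecidableEq ι] (K : ℕ) (Φ : α → ℕ) (hK : ∀ a, Φ a ≤ K)
    (Adm : α → Finset ι → Prop) (a₀ : α) (h0 : Adm a₀ ∅) :
    ∃ a A, Adm a A ∧ A.card ≤ K ∧ ∀ i, i ∉ A → ∀ b, Adm b (insert i A) → Φ b ≤ Φ a := by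
  have key : ∀ n a A, Adm a A → A.card ≤ Φ a → K - Φ a = n →
      ∃ a A, Adm a A ∧ A.card ≤ K ∧ ∀ i, i ∉ A → ∀ b, Adm b (insert i A) → Φ b ≤ Φ a := by
    intro n
    induction n using Nat.strong_induction_on with
    | _ n ih =>
      intro a A hA hc hn
      by_cases h : ∀ i, i ∉ A → ∀ b, Adm b (insert i A) → Φ b ≤ Φ a
      · exact ⟨a, A, hA, hc.trans (hK a), h⟩
      · push Not at h
        obtain ⟨i, hi, b, hb, hab⟩ := h
        have h1 := hK b
        refine ih (K - Φ b) (by omega) b (insert i A) hb ?_ rfl
        rw [Finset.card_insert_of_notMem hi]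
        omega
  exact key _ a₀ ∅ h0 (by simp) rfl

/-- The sum of the numbers of the vectors of the outputs of the NOT gates. -/
def Phi (C : NCirc E s t) (x : E → Bool) : ℕ :=
  ∑ u : Fin s → Bool, num C.gates x u fun _ => false

lemma Phi_le (C : NCirc E s t) (x : E → Bool) : Phi C x ≤ 2 ^ s * (2 ^ C.nots - 1) := by
  unfold Phi
  calc _ ≤ ∑ _u : Fin s → Bool, (2 ^ C.nots - 1) := by
        apply Finset.sum_le_sum
        intro u _
        have := num_lt C.gates x u fun _ => false
        unfold NCirc.nots
        omega
    _ = _ := by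
        rw [Finset.sum_const, smul_eq_mul, Finset.card_univ, Fintype.card_fun, Fintype.card_bool,
          Fintype.card_fin]

lemma Phi_mono (C : NCirc E s t) {x x' : E → Bool} (hx : ∀ e, x e = true → x' e = true) :
    Phi C x' ≤ Phi C x := Finset.sum_le_sum fun u _ => num_le C.gates u _ hx

/-- Guesses from the values at `R`. -/
def guess (C : NCirc E s t) (R : E → Bool) (u : Fin s → Bool) (n : ℕ) : Bool :=
  (vals C.gates R u fun _ => false).getD n false

lemma good_guess (C : NCirc E s t) (hN : C.NotsFree) {R x : E → Bool}
    (h : ∀ u : Fin s → Bool, num C.gates R u (fun _ => false) =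
      num C.gates x u fun _ => false) (u : Fin s → Bool) (w : Fin t → Bool) :
    Good (guess C R u) C.gates x u w := by
  intro n hn
  rw [hN n hn x u w fun _ => false, ← num_inj C.gates (h u) n hn]
  have hlt : n < (vals C.gates R u fun _ => false).length := by
    rw [vals_length]
    obtain ⟨a, ha⟩ := hn
    exact (List.getElem?_eq_some_iff.1 ha).1
  unfold guess
  rw [List.getD_eq_getElem _ _ hlt, List.getElem?_eq_getElem hlt]

/-- If `Phi` does not change between comparable inputs, the vectors do not change. -/
lemma num_eq_of_Phi (C : NCirc E s t) {x x' : E → Bool} (hx : ∀ e, x e = true → x' e = true)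
    (h : Phi C x ≤ Phi C x') (u : Fin s → Bool) :
    num C.gates x' u (fun _ => false) = num C.gates x u fun _ => false := by
  have h1 : Phi C x' = Phi C x := le_antisymm (Phi_mono C hx) h
  exact (Finset.sum_eq_sum_iff_of_le fun u _ => num_le C.gates u _ hx).1 h1 u (mem_univ u)

open Classical in
/-- The input `R` changed to `y` on the set `B`. -/
noncomputable def upd (R : E → Bool) (B : Set E) (y : E → Bool) : E → Bool :=
  fun e => if e ∈ B then y e else R e

lemma upd_mem {R y : E → Bool} {B : Set E} {e : E} (h : e ∈ B) : upd R B y e = y e := if_pos h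

lemma upd_notMem {R y : E → Bool} {B : Set E} {e : E} (h : e ∉ B) : upd R B y e = R e :=
  if_neg h

lemma isProj_upd (R : E → Bool) (B : Set E) : IsProj fun y => upd R B y := by
  intro e
  by_cases h : e ∈ B
  · right; left
    refine ⟨e, ?_⟩
    funext x
    exact upd_mem h
  · right; right
    refine ⟨R e, ?_⟩
    funext x
    exact upd_notMem h

/-- All the witnesses. -/
noncomputable def wits (s t : ℕ) : List ((Fin s → Bool) × (Fin t → Bool)) :=
  (univ : Finset ((Fin s → Bool) × (Fin t → Bool))).toList

lemma wits_length (s t : ℕ) : (wits s t).length = 2 ^ (s + t) := by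
  rw [wits, Finset.length_toList, Finset.card_univ, Fintype.card_prod, Fintype.card_fun,
    Fintype.card_fun, Fintype.card_bool, Fintype.card_fin, Fintype.card_fin, pow_add]

lemma mem_wits {s t : ℕ} (p : (Fin s → Bool) × (Fin t → Bool)) : p ∈ wits s t := by
  simp [wits]

section

variable (B : ι → Set E) (hB : ∀ i j, i ≠ j → Disjoint (B i) (B j)) (c : E → Bool)
  (φ : ι → (E → Bool) → Bool) (hloc : ∀ i x x', (∀ e ∈ B i, x e = x' e) → φ i x = φ i x')

include hB hloc

/-- **Transfer theorem, conjunctive form.** The functions `φ i` depend only on the variables in the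
disjoint sets `B i` and are `true` on the input without zeros; the nondeterministic circuit `C`
computes their conjunction on the inputs which are equal to `c` outside the sets. Then all but at
most `2 ^ s * (2 ^ r - 1)` of them have monotone circuits of size
`2 ^ (s + t) * (size + 2)`. -/
theorem transfer_and (htop : ∀ i, φ i (fun _ => true) = true) (C : NCirc E s t)
    (hN : C.NotsFree)
    (hC : ∀ x, (∀ e, (∀ i, e ∉ B i) → x e = c e) → (C.Acc x ↔ ∀ i, φ i x = true)) :
    ∃ A : Finset ι, A.card ≤ 2 ^ s * (2 ^ C.nots - 1) ∧
      ∀ i, i ∉ A → MonSize (φ i) (2 ^ (s + t) * (C.gates.length + 2)) := by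
  classical
  set Adm : (E → Bool) → Finset ι → Prop := fun R A =>
    (∀ e, (∀ i, e ∉ B i) → R e = c e) ∧ (∀ i, i ∉ A → ∀ e ∈ B i, R e = true) ∧
      ∀ i, φ i R = true with hAdm
  have hmem : ∀ {i j e}, e ∈ B i → e ∈ B j → i = j := by
    intro i j e h1 h2
    by_contra h
    exact Set.disjoint_left.1 (hB i j h) h1 h2
  obtain ⟨R, A, ⟨hR1, hR2, hR3⟩, hA, hmax⟩ := greedy (2 ^ s * (2 ^ C.nots - 1)) (Phi C)
    (Phi_le C) Adm (fun e => if ∃ i, e ∈ B i then true else c e) (by
      refine ⟨fun e he => if_neg ?_, fun i _ e he => if_pos ⟨i, he⟩,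
        fun i => (hloc i _ _ fun e he => ?_).trans (htop i)⟩
      · rintro ⟨i, hi⟩
        exact he i hi
      · exact if_pos ⟨i, he⟩)
  refine ⟨A, hA, fun i hi => ?_⟩
  have hle : ∀ y e, upd R (B i) y e = true → R e = true := by
    intro y e h
    by_cases he : e ∈ B i
    · exact hR2 i hi e he
    · rwa [upd_notMem he] at h
  have hout : ∀ y e, (∀ j, e ∉ B j) → upd R (B i) y e = c e := by
    intro y e he
    rw [upd_notMem (he i)]
    exact hR1 e he
  have hφi : ∀ y, φ i (upd R (B i) y) = φ i y := fun y => hloc i _ _ fun e he => upd_mem he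
  have hφj : ∀ y j, j ≠ i → φ j (upd R (B i) y) = true := by
    intro y j hj
    refine (hloc j _ _ fun e he => ?_).trans (hR3 j)
    exact upd_notMem fun h => hj (hmem he h)
  have hgoodR : ∀ u w, Good (guess C R u) C.gates R u w :=
    good_guess C hN fun _ => rfl
  have hgood : ∀ y, φ i y = true → ∀ u w, Good (guess C R u) C.gates (upd R (B i) y) u w := by
    intro y hy
    apply good_guess C hN
    intro u
    refine num_eq_of_Phi C (hle y) ?_ u
    refine hmax i hi (upd R (B i) y) ⟨hout y, ?_, ?_⟩
    · intro j hj e he
      rw [Finset.mem_insert, not_or] at hj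
      rw [upd_notMem fun h => hj.1 (hmem he h)]
      exact hR2 j hj.2 e he
    · intro j
      by_cases h : j = i
      · subst h
        rw [hφi, hy]
      · exact hφj y j h
  -- the program
  have hF : φ i = fun y => (wits s t).any fun p =>
      (if false = true then chkO (guess C R p.1) C.gates (upd R (B i) y) p.1 p.2
        else chkA (guess C R p.1) C.gates (upd R (B i) y) p.1 p.2) &&
      C.out.val (upd R (B i) y) p.1 p.2 (gvals (guess C R p.1) C.gates (upd R (B i) y) p.1 p.2) := by
    funext y
    simp only [Bool.false_eq_true, if_false]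
    cases hy : φ i y with
    | true =>
      have h1 : C.Acc (upd R (B i) y) := by
        rw [hC _ (hout y)]
        intro j
        by_cases h : j = i
        · subst h
          rw [hφi, hy]
        · exact hφj y j h
      obtain ⟨u, w, h2⟩ := h1
      symm
      rw [List.any_eq_true]
      refine ⟨(u, w), mem_wits _, ?_⟩
      rw [Bool.and_eq_true]
      refine ⟨chkA_of_good (hgood y hy u w), ?_⟩
      rw [(hgood y hy u w).gvals]
      exact h2
    | false =>
      symm
      rw [← Bool.not_eq_true, List.any_eq_true]
      rintro ⟨⟨u, w⟩, _, h⟩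
      rw [Bool.and_eq_true] at h
      obtain ⟨h1, h2⟩ := h
      rw [keyA (hle y) (hgoodR u w) h1] at h2
      have h3 : C.Acc (upd R (B i) y) := ⟨u, w, h2⟩
      rw [hC _ (hout y)] at h3
      have h4 := h3 i
      rw [hφi, hy] at h4
      cases h4
  rw [hF]
  have h5 := monSize_any (K := C.gates.length + 1)
    (fun (p : (Fin s → Bool) × (Fin t → Bool)) (y : E → Bool) =>
      (if false = true then chkO (guess C R p.1) C.gates (upd R (B i) y) p.1 p.2
        else chkA (guess C R p.1) C.gates (upd R (B i) y) p.1 p.2) &&
      C.out.val (upd R (B i) y) p.1 p.2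
        (gvals (guess C R p.1) C.gates (upd R (B i) y) p.1 p.2)) (by
      rintro ⟨u, w⟩
      obtain ⟨L, h1, h2, h3, h4⟩ := prog (isProj_upd R (B i)) (guess C R u) C.gates u w false
      have h6 : Avail L fun y => C.out.val (upd R (B i) y) u w
          (gvals (guess C R u) C.gates (upd R (B i) y) u w) := by
        cases C.out with
        | inp e => exact (isProj_upd R (B i) e).mono (by simp)
        | wit φ => exact Avail.const _ _
        | gate n => exact h3 n
      exact ⟨_, Mon.and h1 h4 h6, by simpa using h2, Avail.head _ _⟩) (wits s t)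
  rw [wits_length] at h5
  exact h5

/-- **Transfer theorem, disjunctive form.** The functions `φ i` depend only on the variables in the
disjoint sets `B i` and are `false` on the input without ones; the nondeterministic circuit `C`
computes their disjunction on the inputs which are equal to `c` outside the sets. Then all but at
most `2 ^ s * (2 ^ r - 1)` of them have monotone circuits of size
`2 ^ (s + t) * (size + 2)`. -/
theorem transfer_or (hbot : ∀ i, φ i (fun _ => false) = false) (C : NCirc E s t)
    (hN : C.NotsFree)
    (hC : ∀ x, (∀ e, (∀ i, e ∉ B i) → x e = c e) → (C.Acc x ↔ ∃ i, φ i x = true)) :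
    ∃ A : Finset ι, A.card ≤ 2 ^ s * (2 ^ C.nots - 1) ∧
      ∀ i, i ∉ A → MonSize (φ i) (2 ^ (s + t) * (C.gates.length + 2)) := by
  classical
  set K := 2 ^ s * (2 ^ C.nots - 1) with hK
  set Adm : (E → Bool) → Finset ι → Prop := fun R A =>
    (∀ e, (∀ i, e ∉ B i) → R e = c e) ∧ (∀ i, i ∉ A → ∀ e ∈ B i, R e = false) ∧
      ∀ i, φ i R = false with hAdm
  have hmem : ∀ {i j e}, e ∈ B i → e ∈ B j → i = j := by
    intro i j e h1 h2
    by_contra h
    exact Set.disjoint_left.1 (hB i j h) h1 h2
  obtain ⟨R, A, ⟨hR1, hR2, hR3⟩, hA, hmax⟩ := greedy K (fun x => K - Phi C x)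
    (fun x => Nat.sub_le _ _) Adm (fun e => if ∃ i, e ∈ B i then false else c e) (by
      refine ⟨fun e he => if_neg ?_, fun i _ e he => if_pos ⟨i, he⟩,
        fun i => (hloc i _ _ fun e he => ?_).trans (hbot i)⟩
      · rintro ⟨i, hi⟩
        exact he i hi
      · exact if_pos ⟨i, he⟩)
  refine ⟨A, hA, fun i hi => ?_⟩
  have hle : ∀ y e, R e = true → upd R (B i) y e = true := by
    intro y e h
    by_cases he : e ∈ B i
    · rw [hR2 i hi e he] at h
      cases h
    · rwa [upd_notMem he]
  have hout : ∀ y e, (∀ j, e ∉ B j) → upd R (B i) y e = c e := by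
    intro y e he
    rw [upd_notMem (he i)]
    exact hR1 e he
  have hφi : ∀ y, φ i (upd R (B i) y) = φ i y := fun y => hloc i _ _ fun e he => upd_mem he
  have hφj : ∀ y j, j ≠ i → φ j (upd R (B i) y) = false := by
    intro y j hj
    refine (hloc j _ _ fun e he => ?_).trans (hR3 j)
    exact upd_notMem fun h => hj (hmem he h)
  have hgoodR : ∀ u w, Good (guess C R u) C.gates R u w :=
    good_guess C hN fun _ => rfl
  have hgood : ∀ y, φ i y = false → ∀ u w, Good (guess C R u) C.gates (upd R (B i) y) u w := by
    intro y hy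
    apply good_guess C hN
    intro u
    refine (num_eq_of_Phi C (hle y) ?_ u).symm
    have h1 := hmax i hi (upd R (B i) y) ⟨hout y, ?_, ?_⟩
    · have h2 := Phi_le C R
      have h3 := Phi_le C (upd R (B i) y)
      rw [← hK] at h2 h3
      omega
    · intro j hj e he
      rw [Finset.mem_insert, not_or] at hj
      rw [upd_notMem fun h => hj.1 (hmem he h)]
      exact hR2 j hj.2 e he
    · intro j
      by_cases h : j = i
      · subst h
        rw [hφi, hy]
      · exact hφj y j h
  -- the program
  have hF : φ i = fun y => (wits s t).any fun p =>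
      (if true = true then chkO (guess C R p.1) C.gates (upd R (B i) y) p.1 p.2
        else chkA (guess C R p.1) C.gates (upd R (B i) y) p.1 p.2) ||
      C.out.val (upd R (B i) y) p.1 p.2 (gvals (guess C R p.1) C.gates (upd R (B i) y) p.1 p.2) := by
    funext y
    simp only [if_true]
    cases hy : φ i y with
    | true =>
      have h1 : C.Acc (upd R (B i) y) := by
        rw [hC _ (hout y)]
        exact ⟨i, by rw [hφi, hy]⟩
      obtain ⟨u, w, h2⟩ := h1
      symm
      rw [List.any_eq_true]
      refine ⟨(u, w), mem_wits _, ?_⟩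
      rw [Bool.or_eq_true]
      cases h3 : chkO (guess C R u) C.gates (upd R (B i) y) u w with
      | true => exact Or.inl rfl
      | false =>
        right
        rw [keyO (hle y) (hgoodR u w) h3]
        exact h2
    | false =>
      symm
      rw [← Bool.not_eq_true, List.any_eq_true]
      rintro ⟨⟨u, w⟩, _, h⟩
      rw [Bool.or_eq_true, chkO_of_good (hgood y hy u w), (hgood y hy u w).gvals] at h
      rcases h with h | h
      · cases h
      · have h3 : C.Acc (upd R (B i) y) := ⟨u, w, h⟩
        rw [hC _ (hout y)] at h3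
        obtain ⟨j, hj⟩ := h3
        by_cases hji : j = i
        · subst hji
          rw [hφi, hy] at hj
          cases hj
        · rw [hφj y j hji] at hj
          cases hj
  rw [hF]
  have h5 := monSize_any (K := C.gates.length + 1)
    (fun (p : (Fin s → Bool) × (Fin t → Bool)) (y : E → Bool) =>
      (if true = true then chkO (guess C R p.1) C.gates (upd R (B i) y) p.1 p.2
        else chkA (guess C R p.1) C.gates (upd R (B i) y) p.1 p.2) ||
      C.out.val (upd R (B i) y) p.1 p.2
        (gvals (guess C R p.1) C.gates (upd R (B i) y) p.1 p.2)) (by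
      rintro ⟨u, w⟩
      obtain ⟨L, h1, h2, h3, h4⟩ := prog (isProj_upd R (B i)) (guess C R u) C.gates u w true
      have h6 : Avail L fun y => C.out.val (upd R (B i) y) u w
          (gvals (guess C R u) C.gates (upd R (B i) y) u w) := by
        cases C.out with
        | inp e => exact (isProj_upd R (B i) e).mono (by simp)
        | wit φ => exact Avail.const _ _
        | gate n => exact h3 n
      exact ⟨_, Mon.or h1 h4 h6, by simpa using h2, Avail.head _ _⟩) (wits s t)
  rw [wits_length] at h5
  exact h5

end

end Pool.Agent.NegLim
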