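import Pool.Agent.NegLim.Basic

/-!
Monotone programs for circuits with guessed outputs of the NOT gates.
-/

set_option autoImplicit false

namespace Pool.Agent.NegLim

variable {E V : Type} {s t : ℕ}

/-! ### monotone programs -/

lemma Avail.mono {L L' : List ((V → Bool) → Bool)} {f : (V → Bool) → Bool} (h : Avail L f)
    (hL : ∀ g ∈ L, g ∈ L') : Avail L' f := by
  rcases h with h | h
  · exact Or.inl (hL f h)
  · exact Or.inr h

lemma Avail.cons {L : List ((V → Bool) → Bool)} {f : (V → Bool) → Bool} (h : Avail L f)
    (g : (V → Bool) → Bool) : Avail (g :: L) f := h.mono fun _ h => List.mem_cons_of_mem _ h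

lemma Avail.head (L : List ((V → Bool) → Bool)) (g : (V → Bool) → Bool) : Avail (g :: L) g :=
  Or.inl List.mem_cons_self

lemma Avail.const (L : List ((V → Bool) → Bool)) (b : Bool) : Avail L (fun _ => b) :=
  Or.inr (Or.inr ⟨b, rfl⟩)

lemma Mon.append {L L' : List ((V → Bool) → Bool)} (h : Mon L) (h' : Mon L') :
    Mon (L ++ L') := by
  induction h with
  | nil => exact h'
  | and h hf hg ih =>
    exact Mon.and ih (hf.mono fun _ h => List.mem_append_left _ h)
      (hg.mono fun _ h => List.mem_append_left _ h)
  | or h hf hg ih =>
    exact Mon.or ih (hf.mono fun _ h => List.mem_append_left _ h)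
      (hg.mono fun _ h => List.mem_append_left _ h)

lemma MonSize.mono {f : (V → Bool) → Bool} {T T' : ℕ} (h : MonSize f T) (hT : T ≤ T') :
    MonSize f T' := by
  obtain ⟨L, h1, h2, h3⟩ := h
  exact ⟨L, h1, h2.trans hT, h3⟩

/-- Disjunction of many functions. -/
lemma monSize_any {P : Type} (G : P → (V → Bool) → Bool) {K : ℕ}
    (hG : ∀ p, MonSize (G p) K) (ps : List P) :
    MonSize (fun x => ps.any fun p => G p x) (ps.length * (K + 1)) := by
  induction ps with
  | nil => exact ⟨[], Mon.nil, by simp, Avail.const _ false⟩
  | cons p ps ih =>
    obtain ⟨L, h1, h2, h3⟩ := ih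
    obtain ⟨L', h1', h2', h3'⟩ := hG p
    refine ⟨_, Mon.or (h1'.append h1) (h3'.mono fun _ h => List.mem_append_left _ h)
      (h3.mono fun _ h => List.mem_append_right _ h), ?_, ?_⟩
    · simp only [List.length_cons, List.length_append]
      rw [Nat.add_mul]
      omega
    · exact Avail.head _ _

/-- A substitution of the variables by variables and constants. -/
def IsProj (σ : (V → Bool) → (E → Bool)) : Prop := ∀ e, Avail [] (fun x => σ x e)

lemma MonSize.comp {F : (E → Bool) → Bool} {T : ℕ} (h : MonSize F T)
    {σ : (V → Bool) → (E → Bool)} (hσ : IsProj σ) : MonSize (fun x => F (σ x)) T := by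
  have key : ∀ L : List ((E → Bool) → Bool), ∀ f, Avail L f →
      Avail (L.map fun f x => f (σ x)) (fun x => f (σ x)) := by
    intro L f hf
    rcases hf with h | ⟨e, rfl⟩ | ⟨b, rfl⟩
    · exact Or.inl (List.mem_map.2 ⟨f, h, rfl⟩)
    · exact (hσ e).mono (by simp)
    · exact Avail.const _ b
  obtain ⟨L, h1, h2, h3⟩ := h
  refine ⟨L.map fun f x => f (σ x), ?_, by simpa using h2, key L F h3⟩
  clear h2 h3
  induction h1 with
  | nil => exact Mon.nil
  | and h hf hg ih => exact Mon.and ih (key _ _ hf) (key _ _ hg)
  | or h hf hg ih => exact Mon.or ih (key _ _ hf) (key _ _ hg)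

/-- The dual function. -/
def dual (f : (V → Bool) → Bool) : (V → Bool) → Bool := fun x => !(f fun e => !(x e))

lemma dual_dual (f : (V → Bool) → Bool) : dual (dual f) = f := by
  funext x
  simp [dual]

lemma MonSize.dual {f : (V → Bool) → Bool} {T : ℕ} (h : MonSize f T) :
    MonSize (dual f) T := by
  have key : ∀ L : List ((V → Bool) → Bool), ∀ f, Avail L f →
      Avail (L.map NegLim.dual) (NegLim.dual f) := by
    intro L f hf
    rcases hf with h | ⟨e, rfl⟩ | ⟨b, rfl⟩
    · exact Or.inl (List.mem_map.2 ⟨f, h, rfl⟩)
    · exact Or.inr (Or.inl ⟨e, by funext x; simp [NegLim.dual]⟩)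
    · exact Avail.const _ (!b)
  obtain ⟨L, h1, h2, h3⟩ := h
  refine ⟨L.map NegLim.dual, ?_, by simpa using h2, key L f h3⟩
  clear h2 h3
  induction h1 with
  | nil => exact Mon.nil
  | @and L f g h hf hg ih =>
    have h4 : NegLim.dual (fun x => f x && g x) =
        fun x => NegLim.dual f x || NegLim.dual g x := by
      funext x; simp [NegLim.dual, Bool.not_and]
    rw [List.map_cons, h4]
    exact Mon.or ih (key _ _ hf) (key _ _ hg)
  | @or L f g h hf hg ih =>
    have h4 : NegLim.dual (fun x => f x || g x) =
        fun x => NegLim.dual f x && NegLim.dual g x := by
      funext x; simp [NegLim.dual, Bool.not_or]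
    rw [List.map_cons, h4]
    exact Mon.and ih (key _ _ hf) (key _ _ hg)

/-! ### the checks of the guesses, conjunctive form -/

/-- The values with the guesses `z`, and the conjunction of the inputs of the NOT gates with the
guess `false`. -/
def runA (z : ℕ → Bool) (C : List (Gate E s t)) (x : E → Bool) (u : Fin s → Bool)
    (w : Fin t → Bool) : List Bool × Bool :=
  C.foldl (fun p g => (p.1 ++ [if g.isNot then z p.1.length else g.val x u w p.1],
    if g.isNot then p.2 && (!(g.val x u w p.1) || z p.1.length) else p.2)) ([], true)

/-- The conjunction of the inputs of the NOT gates with the guess `false`. -/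
def chkA (z : ℕ → Bool) (C : List (Gate E s t)) (x : E → Bool) (u : Fin s → Bool)
    (w : Fin t → Bool) : Bool := (runA z C x u w).2

lemma runA_fst (z : ℕ → Bool) (C : List (Gate E s t)) (x : E → Bool) (u : Fin s → Bool)
    (w : Fin t → Bool) : (runA z C x u w).1 = gvals z C x u w := by
  induction C using List.reverseRecOn with
  | nil => rfl
  | append_singleton C g ih =>
    rw [gvals_concat, ← ih]
    have h : C.length = (runA z C x u w).1.length := by rw [ih, gvals_length]
    rw [h]
    unfold runA
    rw [List.foldl_append]
    rfl

lemma chkA_concat (z : ℕ → Bool) (C : List (Gate E s t)) (g : Gate E s t) (x : E → Bool)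
    (u : Fin s → Bool) (w : Fin t → Bool) : chkA z (C ++ [g]) x u w =
      if g.isNot then chkA z C x u w && (!(g.val x u w (gvals z C x u w)) || z C.length)
      else chkA z C x u w := by
  have h : C.length = (runA z C x u w).1.length := by rw [runA_fst, gvals_length]
  rw [h, ← runA_fst]
  unfold chkA runA
  rw [List.foldl_append]
  rfl

/-- If the guesses are right at a larger input and the check is positive, they are right. -/
lemma keyA {z : ℕ → Bool} {C : List (Gate E s t)} {x R : E → Bool} {u : Fin s → Bool}
    {w : Fin t → Bool} (hx : ∀ e, x e = true → R e = true) (hz : Good z C R u w)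
    (hc : chkA z C x u w = true) : gvals z C x u w = vals C x u w := by
  induction C using List.reverseRecOn with
  | nil => rfl
  | append_singleton C g ih =>
    rw [chkA_concat] at hc
    cases g with
    | and a b =>
      rw [gvals_concat, vals_concat, ih hz.left (by simpa [Gate.isNot] using hc)]
      rfl
    | or a b =>
      rw [gvals_concat, vals_concat, ih hz.left (by simpa [Gate.isNot] using hc)]
      rfl
    | not a =>
      simp only [Gate.isNot, if_true, Bool.and_eq_true, Bool.or_eq_true, Gate.val,
        Bool.not_not] at hc
      have h1 := ih hz.left hc.1
      have h2 := hz.last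
      rw [gvals_concat, vals_concat, h1]
      congr 1
      have h3 : a.val x u w (vals C x u w) = true → a.val R u w (vals C R u w) = true := by
        intro h
        rw [← h1] at h
        rw [← hz.left.gvals]
        exact Wire.val_mono hx (gvals_mono z C u w hx) a h
      have h4 : z C.length = !(a.val x u w (vals C x u w)) := by
        rw [h1] at hc
        rcases hc.2 with h | h
        · rw [h2, h, h3 h]
        · cases hb : a.val x u w (vals C x u w) with
          | false => rw [h]; rfl
          | true => rw [h2, h3 hb] at h; cases h
      rw [h4]
      rfl

lemma chkA_of_good {z : ℕ → Bool} {C : List (Gate E s t)} {x : E → Bool} {u : Fin s → Bool}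
    {w : Fin t → Bool} (hz : Good z C x u w) : chkA z C x u w = true := by
  induction C using List.reverseRecOn with
  | nil => rfl
  | append_singleton C g ih =>
    rw [chkA_concat, ih hz.left]
    cases g with
    | and a b => rfl
    | or a b => rfl
    | not a =>
      rw [hz.left.gvals, hz.last]
      simp only [Gate.isNot, if_true, Gate.val, Bool.not_not, Bool.true_and]
      cases a.val x u w (vals C x u w) <;> rfl

/-! ### the checks of the guesses, disjunctive form -/

/-- The values with the guesses `z`, and the disjunction of the inputs of the NOT gates with the
guess `true`. -/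
def runO (z : ℕ → Bool) (C : List (Gate E s t)) (x : E → Bool) (u : Fin s → Bool)
    (w : Fin t → Bool) : List Bool × Bool :=
  C.foldl (fun p g => (p.1 ++ [if g.isNot then z p.1.length else g.val x u w p.1],
    if g.isNot then p.2 || (!(g.val x u w p.1) && z p.1.length) else p.2)) ([], false)

/-- The disjunction of the inputs of the NOT gates with the guess `true`. -/
def chkO (z : ℕ → Bool) (C : List (Gate E s t)) (x : E → Bool) (u : Fin s → Bool)
    (w : Fin t → Bool) : Bool := (runO z C x u w).2

lemma runO_fst (z : ℕ → Bool) (C : List (Gate E s t)) (x : E → Bool) (u : Fin s → Bool)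
    (w : Fin t → Bool) : (runO z C x u w).1 = gvals z C x u w := by
  induction C using List.reverseRecOn with
  | nil => rfl
  | append_singleton C g ih =>
    rw [gvals_concat, ← ih]
    have h : C.length = (runO z C x u w).1.length := by rw [ih, gvals_length]
    rw [h]
    unfold runO
    rw [List.foldl_append]
    rfl

lemma chkO_concat (z : ℕ → Bool) (C : List (Gate E s t)) (g : Gate E s t) (x : E → Bool)
    (u : Fin s → Bool) (w : Fin t → Bool) : chkO z (C ++ [g]) x u w =
      if g.isNot then chkO z C x u w || (!(g.val x u w (gvals z C x u w)) && z C.length)
      else chkO z C x u w := by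
  have h : C.length = (runO z C x u w).1.length := by rw [runO_fst, gvals_length]
  rw [h, ← runO_fst]
  unfold chkO runO
  rw [List.foldl_append]
  rfl

/-- If the guesses are right at a smaller input and the check is negative, they are right. -/
lemma keyO {z : ℕ → Bool} {C : List (Gate E s t)} {x R : E → Bool} {u : Fin s → Bool}
    {w : Fin t → Bool} (hx : ∀ e, R e = true → x e = true) (hz : Good z C R u w)
    (hc : chkO z C x u w = false) : gvals z C x u w = vals C x u w := by
  induction C using List.reverseRecOn with
  | nil => rfl
  | append_singleton C g ih =>
    rw [chkO_concat] at hc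
    cases g with
    | and a b =>
      rw [gvals_concat, vals_concat, ih hz.left (by simpa [Gate.isNot] using hc)]
      rfl
    | or a b =>
      rw [gvals_concat, vals_concat, ih hz.left (by simpa [Gate.isNot] using hc)]
      rfl
    | not a =>
      simp only [Gate.isNot, if_true, Bool.or_eq_false_iff, Gate.val, Bool.not_not] at hc
      have h1 := ih hz.left hc.1
      have h2 := hz.last
      rw [gvals_concat, vals_concat, h1]
      congr 1
      have h3 : a.val R u w (vals C R u w) = true → a.val x u w (vals C x u w) = true := by
        intro h
        rw [← hz.left.gvals] at h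
        rw [← h1]
        exact Wire.val_mono hx (gvals_mono z C u w hx) a h
      have h4 : z C.length = !(a.val x u w (vals C x u w)) := by
        rw [h1] at hc
        cases hb : a.val x u w (vals C x u w) with
        | true =>
          have h5 := hc.2
          rw [hb] at h5
          simpa using h5
        | false =>
          cases hb' : a.val R u w (vals C R u w) with
          | false => rw [h2, hb']
          | true => rw [h3 hb'] at hb; cases hb
      rw [h4]
      rfl

lemma chkO_of_good {z : ℕ → Bool} {C : List (Gate E s t)} {x : E → Bool} {u : Fin s → Bool}
    {w : Fin t → Bool} (hz : Good z C x u w) : chkO z C x u w = false := by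
  induction C using List.reverseRecOn with
  | nil => rfl
  | append_singleton C g ih =>
    rw [chkO_concat, ih hz.left]
    cases g with
    | and a b => rfl
    | or a b => rfl
    | not a =>
      rw [hz.left.gvals, hz.last]
      simp only [Gate.isNot, if_true, Gate.val, Bool.not_not, Bool.false_or]
      cases a.val x u w (vals C x u w) <;> rfl

/-! ### programs -/

/-- The values of the gates with the guesses and both checks have monotone programs. -/
lemma prog {σ : (V → Bool) → (E → Bool)} (hσ : IsProj σ) (z : ℕ → Bool)
    (C : List (Gate E s t)) (u : Fin s → Bool) (w : Fin t → Bool) (o : Bool) :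
    ∃ L, Mon L ∧ L.length ≤ C.length ∧
      (∀ n, Avail L fun x => (gvals z C (σ x) u w).getD n false) ∧
      Avail L (fun x => if o then chkO z C (σ x) u w else chkA z C (σ x) u w) := by
  induction C using List.reverseRecOn with
  | nil =>
    refine ⟨[], Mon.nil, le_rfl, fun n => ?_, ?_⟩
    · exact Avail.const _ false
    · cases o
      · exact Avail.const _ true
      · exact Avail.const _ false
  | append_singleton C g ih =>
    obtain ⟨L, h1, h2, h3, h4⟩ := ih
    have hw : ∀ a : Wire E s t, Avail L fun x => a.val (σ x) u w (gvals z C (σ x) u w) := by
      intro a
      cases a with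
      | inp e => exact (hσ e).mono (by simp)
      | wit φ => exact Avail.const _ _
      | gate n => exact h3 n
    have hval : ∀ L', (∀ f, Avail L f → Avail L' f) →
        Avail L' (fun x => if g.isNot then z C.length else
          g.val (σ x) u w (gvals z C (σ x) u w)) →
        ∀ n, Avail L' fun x => (gvals z (C ++ [g]) (σ x) u w).getD n false := by
      intro L' hL' h5 n
      by_cases hn : n = C.length
      · have : (fun x => (gvals z (C ++ [g]) (σ x) u w).getD n false) =
            fun x => if g.isNot then z C.length else
              g.val (σ x) u w (gvals z C (σ x) u w) := by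
          funext x
          rw [gvals_concat, getD_concat, gvals_length, if_pos hn]
        rw [this]
        exact h5
      · have : (fun x => (gvals z (C ++ [g]) (σ x) u w).getD n false) =
            fun x => (gvals z C (σ x) u w).getD n false := by
          funext x
          rw [gvals_concat, getD_concat, gvals_length, if_neg hn]
        rw [this]
        exact hL' _ (h3 n)
    cases hg : g.isNot with
    | false =>
      have h6 : (fun x => if o then chkO z (C ++ [g]) (σ x) u w
          else chkA z (C ++ [g]) (σ x) u w) =
          fun x => if o then chkO z C (σ x) u w else chkA z C (σ x) u w := by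
        funext x
        rw [chkA_concat, chkO_concat, hg]
        rfl
      rw [h6]
      cases g with
      | and a b =>
        refine ⟨_, Mon.and h1 (hw a) (hw b), by simpa using h2, ?_, h4.cons _⟩
        exact hval _ (fun f hf => hf.cons _) (Avail.head _ _)
      | or a b =>
        refine ⟨_, Mon.or h1 (hw a) (hw b), by simpa using h2, ?_, h4.cons _⟩
        exact hval _ (fun f hf => hf.cons _) (Avail.head _ _)
      | not a => simp [Gate.isNot] at hg
    | true =>
      obtain ⟨a, rfl⟩ : ∃ a, g = Gate.not a := by
        cases g with
        | and a b => simp [Gate.isNot] at hg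
        | or a b => simp [Gate.isNot] at hg
        | not a => exact ⟨a, rfl⟩
      cases o with
      | false =>
        cases hz : z C.length with
        | true =>
          refine ⟨L, h1, h2.trans (by simp), hval L (fun _ h => h) ?_, ?_⟩
          · exact Avail.const _ _
          · have h6 : (fun x => if false = true then chkO z (C ++ [Gate.not a]) (σ x) u w
                else chkA z (C ++ [Gate.not a]) (σ x) u w) =
                fun x => if false = true then chkO z C (σ x) u w else chkA z C (σ x) u w := by
              funext x
              simp [chkA_concat, hz]
            rw [h6]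
            exact h4
        | false =>
          refine ⟨_, Mon.and h1 h4 (hw a), by simpa using h2,
            hval _ (fun f hf => hf.cons _) ?_, ?_⟩
          · exact Avail.const _ _
          · have h6 : (fun x => if false = true then chkO z (C ++ [Gate.not a]) (σ x) u w
                else chkA z (C ++ [Gate.not a]) (σ x) u w) =
                fun x => (if false = true then chkO z C (σ x) u w else chkA z C (σ x) u w) &&
                  a.val (σ x) u w (gvals z C (σ x) u w) := by
              funext x
              simp [chkA_concat, hz, Gate.isNot, Gate.val]
            rw [h6]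
            exact Avail.head _ _
      | true =>
        cases hz : z C.length with
        | false =>
          refine ⟨L, h1, h2.trans (by simp), hval L (fun _ h => h) ?_, ?_⟩
          · exact Avail.const _ _
          · have h6 : (fun x => if true = true then chkO z (C ++ [Gate.not a]) (σ x) u w
                else chkA z (C ++ [Gate.not a]) (σ x) u w) =
                fun x => if true = true then chkO z C (σ x) u w else chkA z C (σ x) u w := by
              funext x
              simp [chkO_concat, hz]
            rw [h6]
            exact h4
        | true =>
          refine ⟨_, Mon.or h1 h4 (hw a), by simpa using h2,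
            hval _ (fun f hf => hf.cons _) ?_, ?_⟩
          · exact Avail.const _ _
          · have h6 : (fun x => if true = true then chkO z (C ++ [Gate.not a]) (σ x) u w
                else chkA z (C ++ [Gate.not a]) (σ x) u w) =
                fun x => (if true = true then chkO z C (σ x) u w else chkA z C (σ x) u w) ||
                  a.val (σ x) u w (gvals z C (σ x) u w) := by
              funext x
              simp [chkO_concat, hz, Gate.isNot, Gate.val]
            rw [h6]
            exact Avail.head _ _

end Pool.Agent.NegLim
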