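import Pool.Agent.NegLim.Basic

/-!
Semantic programs with AND, OR and NOT, their conversion to nondeterministic circuits, and
elementary constructions without NOT.
-/

set_option autoImplicit false

namespace Pool.Agent.NegLim

variable {E : Type} {s t : ℕ}

/-- Functions of the input and of the witness. -/
abbrev Fn (E : Type) (s t : ℕ) : Type :=
  (E → Bool) → (Fin s → Bool) → (Fin t → Bool) → Bool

/-- An input bit, a function of the witness or a member of the list. -/
def Av (L : List (Fn E s t)) (f : Fn E s t) : Prop :=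
  f ∈ L ∨ (∃ e, f = fun x _ _ => x e) ∨
    ∃ φ : (Fin s → Bool) → (Fin t → Bool) → Bool, f = fun _ u w => φ u w

/-- Programs (the last function comes first) with `r` negations, which are only applied to
functions that do not depend on `w`. -/
inductive Prg : List (Fn E s t) → ℕ → Prop
  | nil : Prg [] 0
  | and {L : List (Fn E s t)} {r : ℕ} {f g : Fn E s t} :
      Prg L r → Av L f → Av L g → Prg ((fun x u w => f x u w && g x u w) :: L) r
  | or {L : List (Fn E s t)} {r : ℕ} {f g : Fn E s t} :
      Prg L r → Av L f → Av L g → Prg ((fun x u w => f x u w || g x u w) :: L) r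
  | not {L : List (Fn E s t)} {r : ℕ} {f : Fn E s t} :
      Prg L r → Av L f → (∀ x u w w', f x u w = f x u w') →
        Prg ((fun x u w => !(f x u w)) :: L) (r + 1)

lemma Av.mono {L L' : List (Fn E s t)} {f : Fn E s t} (h : Av L f) (hL : ∀ g ∈ L, g ∈ L') :
    Av L' f := by
  rcases h with h | h
  · exact Or.inl (hL f h)
  · exact Or.inr h

lemma Av.right {L : List (Fn E s t)} {f : Fn E s t} (h : Av L f) (M : List (Fn E s t)) :
    Av (M ++ L) f := h.mono fun _ h => List.mem_append_right _ h

lemma Av.head (L : List (Fn E s t)) (g : Fn E s t) : Av (g :: L) g := Or.inl List.mem_cons_self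

/-! ### conversion -/

lemma conv_wire {L : List (Fn E s t)} {f : Fn E s t} (h : Av L f) : ∃ a : Wire E s t,
    ∀ x u w, a.val x u w ((L.map fun f => f x u w).reverse) = f x u w := by
  rcases h with h | ⟨e, rfl⟩ | ⟨φ, rfl⟩
  · obtain ⟨n, hn, hf⟩ := List.getElem_of_mem (List.mem_reverse.2 h)
    refine ⟨Wire.gate n, fun x u w => ?_⟩
    have h1 : (L.map fun f => f x u w).reverse = L.reverse.map fun f => f x u w := by
      rw [List.map_reverse]
    show ((L.map fun f => f x u w).reverse).getD n false = _
    rw [h1, List.getD_eq_getElem _ _ (by simpa using hn), List.getElem_map, hf]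
  · exact ⟨Wire.inp e, fun x u w => rfl⟩
  · exact ⟨Wire.wit φ, fun x u w => rfl⟩

lemma conv {L : List (Fn E s t)} {r : ℕ} (h : Prg L r) : ∃ C : List (Gate E s t),
    C.length = L.length ∧ C.countP Gate.isNot = r ∧
      (∀ x u w, vals C x u w = (L.map fun f => f x u w).reverse) ∧
      ∀ n : ℕ, (∃ a, C[n]? = some (Gate.not a)) → ∀ x u w w',
        (vals C x u w)[n]? = (vals C x u w')[n]? := by
  have step : ∀ (C : List (Gate E s t)) (g : Gate E s t),
      (∀ n : ℕ, (∃ a, C[n]? = some (Gate.not a)) → ∀ x u w w',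
        (vals C x u w)[n]? = (vals C x u w')[n]?) →
      ((∃ a, g = Gate.not a) → ∀ x u w w', g.val x u w (vals C x u w) =
        g.val x u w' (vals C x u w')) →
      ∀ n : ℕ, (∃ a, (C ++ [g])[n]? = some (Gate.not a)) → ∀ x u w w',
        (vals (C ++ [g]) x u w)[n]? = (vals (C ++ [g]) x u w')[n]? := by
    intro C g h1 h2 n hn x u w w'
    have hlen := vals_length C x u w
    have hlen' := vals_length C x u w'
    rw [vals_concat, vals_concat]
    rcases lt_trichotomy n C.length with h3 | h3 | h3
    · rw [List.getElem?_append_left (by omega), List.getElem?_append_left (by omega)]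
      refine h1 n ?_ x u w w'
      obtain ⟨a, ha⟩ := hn
      rw [List.getElem?_append_left h3] at ha
      exact ⟨a, ha⟩
    · subst h3
      obtain ⟨a, ha⟩ := hn
      rw [List.getElem?_append_right le_rfl] at ha
      simp only [Nat.sub_self, List.getElem?_cons_zero, Option.some.injEq] at ha
      rw [List.getElem?_append_right (by omega), List.getElem?_append_right (by omega),
        hlen, hlen', h2 ⟨a, ha⟩ x u w w']
    · obtain ⟨a, ha⟩ := hn
      rw [List.getElem?_eq_none (by simp; omega)] at ha
      cases ha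
  induction h with
  | nil => exact ⟨[], rfl, rfl, fun _ _ _ => rfl, fun n h => by simp at h⟩
  | @and L r f g h hf hg ih =>
    obtain ⟨C, h1, h2, h3, h4⟩ := ih
    obtain ⟨a, ha⟩ := conv_wire hf
    obtain ⟨b, hb⟩ := conv_wire hg
    refine ⟨C ++ [Gate.and a b], by simp [h1], by simp [List.countP_append, h2, Gate.isNot],
      fun x u w => ?_, step C _ h4 (by rintro ⟨c, hc⟩; cases hc)⟩
    rw [vals_concat, h3, List.map_cons, List.reverse_cons]
    simp only [Gate.val, ha, hb]
  | @or L r f g h hf hg ih =>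
    obtain ⟨C, h1, h2, h3, h4⟩ := ih
    obtain ⟨a, ha⟩ := conv_wire hf
    obtain ⟨b, hb⟩ := conv_wire hg
    refine ⟨C ++ [Gate.or a b], by simp [h1], by simp [List.countP_append, h2, Gate.isNot],
      fun x u w => ?_, step C _ h4 (by rintro ⟨c, hc⟩; cases hc)⟩
    rw [vals_concat, h3, List.map_cons, List.reverse_cons]
    simp only [Gate.val, ha, hb]
  | @not L r f h hf hfree ih =>
    obtain ⟨C, h1, h2, h3, h4⟩ := ih
    obtain ⟨a, ha⟩ := conv_wire hf
    refine ⟨C ++ [Gate.not a], by simp [h1], by simp [List.countP_append, h2, Gate.isNot],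
      fun x u w => ?_, step C _ h4 (fun _ x u w w' => ?_)⟩
    · rw [vals_concat, h3, List.map_cons, List.reverse_cons]
      simp only [Gate.val, ha]
    · simp only [Gate.val, h3, ha, hfree x u w w']

/-- A program gives a circuit. -/
theorem conv_circ {L : List (Fn E s t)} {r : ℕ} {f : Fn E s t} (h : Prg L r) (hf : Av L f) :
    ∃ C : NCirc E s t, C.gates.length = L.length ∧ C.nots = r ∧ C.NotsFree ∧
      ∀ x, C.Acc x ↔ ∃ u w, f x u w = true := by
  obtain ⟨C, h1, h2, h3, h4⟩ := conv h
  obtain ⟨a, ha⟩ := conv_wire hf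
  refine ⟨⟨C, a⟩, h1, h2, h4, fun x => ?_⟩
  constructor
  · rintro ⟨u, w, h⟩
    rw [h3, ha] at h
    exact ⟨u, w, h⟩
  · rintro ⟨u, w, h⟩
    refine ⟨u, w, ?_⟩
    rw [h3, ha]
    exact h

/-! ### constructions without NOT -/

/-- From the functions in `S`, those in `T` can be computed with at most `K` gates AND and OR. -/
def Makes (S : Set (Fn E s t)) (K : ℕ) (T : Set (Fn E s t)) : Prop :=
  ∀ L, (∀ f ∈ S, Av L f) → ∃ M, M.length ≤ K ∧ (∀ r, Prg L r → Prg (M ++ L) r) ∧
    ∀ f ∈ T, Av (M ++ L) f

lemma Makes.le {S : Set (Fn E s t)} {K K' : ℕ} {T : Set (Fn E s t)} (h : Makes S K T)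
    (hK : K ≤ K') : Makes S K' T := by
  intro L hL
  obtain ⟨M, h1, h2⟩ := h L hL
  exact ⟨M, h1.trans hK, h2⟩

lemma Makes.subset {S : Set (Fn E s t)} {K : ℕ} {T T' : Set (Fn E s t)} (h : Makes S K T)
    (hT : T' ⊆ T) : Makes S K T' := by
  intro L hL
  obtain ⟨M, h1, h2, h3⟩ := h L hL
  exact ⟨M, h1, h2, fun f hf => h3 f (hT hf)⟩

lemma Makes.base {S S' : Set (Fn E s t)} {K : ℕ} {T : Set (Fn E s t)} (h : Makes S K T)
    (hS : S ⊆ S') : Makes S' K T := fun L hL => h L fun f hf => hL f (hS hf)

lemma Makes.of_mem {S T : Set (Fn E s t)} (h : T ⊆ S) : Makes S 0 T := by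
  intro L hL
  exact ⟨[], le_rfl, fun _ h => h, fun f hf => hL f (h hf)⟩

lemma Makes.inp (S : Set (Fn E s t)) (e : E) : Makes S 0 {fun x _ _ => x e} := by
  intro L _
  refine ⟨[], le_rfl, fun _ h => h, fun f hf => ?_⟩
  rw [Set.mem_singleton_iff.1 hf]
  exact Or.inr (Or.inl ⟨e, rfl⟩)

lemma Makes.wit (S : Set (Fn E s t)) (φ : (Fin s → Bool) → (Fin t → Bool) → Bool) :
    Makes S 0 {fun _ u w => φ u w} := by
  intro L _
  refine ⟨[], le_rfl, fun _ h => h, fun f hf => ?_⟩
  rw [Set.mem_singleton_iff.1 hf]
  exact Or.inr (Or.inr ⟨φ, rfl⟩)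

lemma Makes.trans {S : Set (Fn E s t)} {K K' : ℕ} {T T' : Set (Fn E s t)} (h : Makes S K T)
    (h' : Makes (S ∪ T) K' T') : Makes S (K + K') (T ∪ T') := by
  intro L hL
  obtain ⟨M, h1, h2, h3⟩ := h L hL
  obtain ⟨M', h1', h2', h3'⟩ := h' (M ++ L) (by
    rintro f (hf | hf)
    · exact (hL f hf).right M
    · exact h3 f hf)
  refine ⟨M' ++ M, by rw [List.length_append]; omega, fun r hr => ?_, fun f hf => ?_⟩
  · rw [List.append_assoc]
    exact h2' r (h2 r hr)
  · rw [List.append_assoc]
    rcases hf with hf | hf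
    · exact (h3 f hf).right M'
    · exact h3' f hf

lemma Makes.union {S : Set (Fn E s t)} {K K' : ℕ} {T T' : Set (Fn E s t)} (h : Makes S K T)
    (h' : Makes S K' T') : Makes S (K + K') (T ∪ T') :=
  h.trans (h'.base Set.subset_union_left)

lemma Makes.and {S : Set (Fn E s t)} {K K' : ℕ} {f g : Fn E s t} (h : Makes S K {f})
    (h' : Makes S K' {g}) : Makes S (K + K' + 1) {fun x u w => f x u w && g x u w} := by
  intro L hL
  obtain ⟨M, h1, h2, h3⟩ := h.union h' L hL
  have hf : Av (M ++ L) f := h3 f (Or.inl rfl)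
  have hg : Av (M ++ L) g := h3 g (Or.inr rfl)
  refine ⟨(fun x u w => f x u w && g x u w) :: M, by simpa using h1, fun r hr => ?_, ?_⟩
  · exact Prg.and (h2 r hr) hf hg
  · intro k hk
    rw [Set.mem_singleton_iff.1 hk]
    exact Av.head _ _

lemma Makes.or {S : Set (Fn E s t)} {K K' : ℕ} {f g : Fn E s t} (h : Makes S K {f})
    (h' : Makes S K' {g}) : Makes S (K + K' + 1) {fun x u w => f x u w || g x u w} := by
  intro L hL
  obtain ⟨M, h1, h2, h3⟩ := h.union h' L hL
  have hf : Av (M ++ L) f := h3 f (Or.inl rfl)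
  have hg : Av (M ++ L) g := h3 g (Or.inr rfl)
  refine ⟨(fun x u w => f x u w || g x u w) :: M, by simpa using h1, fun r hr => ?_, ?_⟩
  · exact Prg.or (h2 r hr) hf hg
  · intro k hk
    rw [Set.mem_singleton_iff.1 hk]
    exact Av.head _ _

lemma Makes.list {ι : Type} {S : Set (Fn E s t)} {K : ℕ} {T : ι → Set (Fn E s t)} (l : List ι)
    (h : ∀ i ∈ l, Makes S K (T i)) : Makes S (l.length * K) {f | ∃ i ∈ l, f ∈ T i} := by
  induction l with
  | nil =>
    intro L _
    refine ⟨[], by simp, fun _ h => h, ?_⟩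
    rintro f ⟨i, hi, _⟩
    simp at hi
  | cons i l ih =>
    have h1 := (h i List.mem_cons_self).union (ih fun j hj => h j (List.mem_cons_of_mem _ hj))
    refine (h1.le ?_).subset ?_
    · rw [List.length_cons, Nat.add_mul]
      omega
    · rintro f ⟨j, hj, hf⟩
      rcases List.mem_cons.1 hj with rfl | hj
      · exact Or.inl hf
      · exact Or.inr ⟨j, hj, hf⟩

lemma Makes.any {ι : Type} {S : Set (Fn E s t)} {K : ℕ} {F : ι → Fn E s t} (l : List ι)
    (h : ∀ i ∈ l, Makes S K {F i}) :
    Makes S (l.length * (K + 1)) {fun x u w => l.any fun i => F i x u w} := by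
  induction l with
  | nil => exact (Makes.wit S fun _ _ => false).le (by simp)
  | cons i l ih =>
    have h1 := (h i List.mem_cons_self).or (ih fun j hj => h j (List.mem_cons_of_mem _ hj))
    refine (h1.le ?_).subset ?_
    · rw [List.length_cons, Nat.add_mul]
      omega
    · intro f hf
      rw [Set.mem_singleton_iff.1 hf]
      rfl

/-! ### thresholds -/

/-- At least `a` of the bits in the list are `true`. -/
def thr : List E → ℕ → Fn E s t
  | _, 0 => fun _ _ _ => true
  | [], _ + 1 => fun _ _ _ => false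
  | e :: l, a + 1 => fun x u w => thr l (a + 1) x u w || (x e && thr l a x u w)

lemma thr_eq (l : List E) (a : ℕ) (x : E → Bool) (u : Fin s → Bool) (w : Fin t → Bool) :
    thr l a x u w = decide (a ≤ l.countP fun e => x e) := by
  induction l generalizing a with
  | nil =>
    cases a with
    | zero => simp [thr]
    | succ a => simp [thr]
  | cons e l ih =>
    cases a with
    | zero => simp [thr]
    | succ a =>
      simp only [thr, ih, List.countP_cons]
      cases x e with
      | true =>
        simp only [if_true, Bool.true_and]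
        rw [← Bool.decide_or]
        apply decide_eq_decide.2
        omega
      | false => simp

lemma makes_thr (S : Set (Fn E s t)) (A : ℕ) (l : List E) :
    Makes S (l.length * (2 * (A + 1))) {f | ∃ a ≤ A, f = thr l a} := by
  induction l with
  | nil =>
    have h : ∀ a ∈ List.range (A + 1), Makes S 0 {(thr [] a : Fn E s t)} := by
      intro a _
      cases a with
      | zero => exact Makes.wit S fun _ _ => true
      | succ a => exact Makes.wit S fun _ _ => false
    refine ((Makes.list _ h).le (by simp)).subset ?_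
    rintro f ⟨a, ha, rfl⟩
    exact ⟨a, List.mem_range.2 (by omega), rfl⟩
  | cons e l ih =>
    have h : ∀ a ∈ List.range (A + 1), Makes (S ∪ {f | ∃ a ≤ A, f = thr l a}) 2
        {(thr (e :: l) a : Fn E s t)} := by
      intro a ha
      have ha' := List.mem_range.1 ha
      cases a with
      | zero => exact (Makes.wit _ fun _ _ => true).le (by norm_num)
      | succ a =>
        have h1 : ∀ b ≤ A, Makes (S ∪ {f | ∃ a ≤ A, f = thr l a}) 0
            {(thr l b : Fn E s t)} := by
          intro b hb
          refine Makes.of_mem ?_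
          intro f hf
          rw [Set.mem_singleton_iff.1 hf]
          exact Or.inr ⟨b, hb, rfl⟩
        exact (h1 (a + 1) (by omega)).or ((Makes.inp _ e).and (h1 a (by omega)))
    have h2 := ih.trans (Makes.list _ h)
    refine (h2.le ?_).subset ?_
    · rw [List.length_cons, List.length_range]
      exact le_of_eq (by ring)
    · rintro f ⟨a, ha, rfl⟩
      exact Or.inr ⟨a, List.mem_range.2 (by omega), rfl⟩

end Pool.Agent.NegLim
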