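import Pool.Agent.NegLim.Up2

/-!
The upper bound, end of the proof.
-/

set_option autoImplicit false

namespace Pool.Agent.NegLim

open Finset

/-- **Upper bound.** Let `N` be the number of the input bits, `1 ≤ r` and
`N + 1 ≤ 2 ^ (s + r - 1)`. For every nondeterministic circuit with `t` witness bits there is an
equivalent one with `s + t` witness bits and `r` NOT gates which do not depend on the last `t`
witness bits, of size at most `2 * size + 12 * (N + r) ^ 3`. -/
theorem upper {E : Type} [Fintype E] (s t r : ℕ) (hr : 1 ≤ r)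
    (hN : Fintype.card E + 1 ≤ 2 ^ (s + r - 1)) (D : NCirc E 0 t) :
    ∃ C : NCirc E s t, C.nots = r ∧ C.NotsFree ∧
      C.gates.length ≤ 2 * D.gates.length + 12 * (Fintype.card E + r) ^ 3 ∧
      ∀ x, C.Acc x ↔ D.Acc x := by
  classical
  obtain ⟨q, rfl⟩ : ∃ q, r = q + 1 := ⟨r - 1, by omega⟩
  set N := Fintype.card E with hNdef
  have hN' : N < 2 ^ (s + q) := by
    have : s + (q + 1) - 1 = s + q := by omega
    rw [this] at hN
    omega
  set l : List E := (univ : Finset E).toList with hl
  have hlen : l.length = N := by rw [hl, Finset.length_toList, Finset.card_univ]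
  have hmem : ∀ e, e ∈ l := fun e => by simp [hl]
  have hW : ∀ x : E → Bool, l.countP (fun e => x e) ≤ N := by
    intro x
    rw [← hlen]
    exact List.countP_le_length
  have hWe : ∀ (x : E → Bool) (e : E), l.countP (fun e => x e) =
      (l.erase e).countP (fun e => x e) + (x e).toNat := by
    intro x e
    rw [(List.perm_cons_erase (hmem e)).countP_eq, List.countP_cons]
    cases x e <;> simp
  set S : Set (Fn E s t) := {f | ∃ a, f = thr l a} ∪
    {f | ∃ e ∈ l, f ∈ {f : Fn E s t | ∃ a, f = thr (l.erase e) a}} with hS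
  have h0 : Makes (∅ : Set (Fn E s t)) (2 * N * (N + 1) ^ 2) S := by
    have h1 := makes_thr_all (∅ : Set (Fn E s t)) l
    have h2 := Makes.list (S := (∅ : Set (Fn E s t))) (K := N * (2 * (N + 1)))
      (T := fun e => {f : Fn E s t | ∃ a, f = thr (l.erase e) a}) l (by
        intro e _
        have h3 : (l.erase e).length ≤ N := by
          rw [← hlen]
          exact List.length_erase_le
        exact (makes_thr_all (∅ : Set (Fn E s t)) (l.erase e)).le
          (Nat.mul_le_mul h3 (Nat.mul_le_mul_left 2 (by omega))))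
    refine (h1.union h2).le ?_
    rw [hlen]
    exact le_of_eq (by ring)
  obtain ⟨L, p1, p2, p3, p4⟩ := prg_ind q l N (S := S) (fun a => Or.inl ⟨a, rfl⟩) h0 q
  set T : Set (Fn E s t) := S ∪ {f | ∃ c ≤ N, f = ind q l N q c} with hT
  have hLT : ∀ f ∈ T, Av L f := by
    rintro f (hf | ⟨c, hc, rfl⟩)
    · exact p3 f hf
    · exact p4 c hc
  set Lc : Fn E s t := fun x u w => (List.range (N + 1)).any fun c =>
    decide (wnum u = c) && thr l (c * 2 ^ q) x u w with hLc
  set Uc : Fn E s t := fun x u w => (List.range (N + 1)).any fun c =>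
    decide (wnum u = c) && thr l ((c + 1) * 2 ^ q) x u w with hUc
  set neg : E → Fn E s t := fun e x u w => (List.range (N + 1)).any fun c =>
    ind q l N q c x u w && thr (l.erase e) c x u w with hneg
  have mthr : ∀ (R : Set (Fn E s t)) a, Makes (T ∪ R) 0 {(thr l a : Fn E s t)} := by
    intro R a
    apply Makes.of_mem
    intro f hf
    rw [Set.mem_singleton_iff.1 hf]
    exact Or.inl (Or.inl (Or.inl ⟨a, rfl⟩))
  have mwit : ∀ (R : Set (Fn E s t)) (c : ℕ), Makes (T ∪ R) 0
      {(fun _ u _ => decide (wnum u = c) : Fn E s t)} := fun R c =>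
    Makes.wit _ fun u _ => decide (wnum u = c)
  have mLc : ∀ R : Set (Fn E s t), Makes (T ∪ R) ((N + 1) * 2) {Lc} := by
    intro R
    have := Makes.any (S := T ∪ R) (K := 1) (F := fun c x u w => decide (wnum u = c) &&
      thr l (c * 2 ^ q) x u w) (List.range (N + 1)) (fun c _ => (mwit R c).and (mthr R _))
    rw [List.length_range] at this
    exact this
  have mUc : Makes (T ∪ ∅) ((N + 1) * 2) {Uc} := by
    have := Makes.any (S := T ∪ ∅) (K := 1) (F := fun c x u w => decide (wnum u = c) &&
      thr l ((c + 1) * 2 ^ q) x u w) (List.range (N + 1)) (fun c _ => (mwit ∅ c).and (mthr ∅ _))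
    rw [List.length_range] at this
    exact this
  have mneg : ∀ (R : Set (Fn E s t)) e, Makes (T ∪ R) ((N + 1) * 2) {neg e} := by
    intro R e
    have := Makes.any (S := T ∪ R) (K := 1) (F := fun c x u w => ind q l N q c x u w &&
      thr (l.erase e) c x u w) (List.range (N + 1)) (by
        intro c hc
        have hc' := List.mem_range.1 hc
        refine Makes.and (K := 0) (K' := 0) ?_ ?_
        · apply Makes.of_mem
          intro f hf
          rw [Set.mem_singleton_iff.1 hf]
          exact Or.inl (Or.inr ⟨c, by omega, rfl⟩)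
        · apply Makes.of_mem
          intro f hf
          rw [Set.mem_singleton_iff.1 hf]
          exact Or.inl (Or.inl (Or.inr ⟨e, hmem e, c, rfl⟩)))
    rw [List.length_range] at this
    exact this
  -- the check with the last NOT gate
  obtain ⟨M, m1, m2, m3⟩ := mUc L (by
    rintro f (hf | hf)
    · exact hLT f hf
    · exact absurd hf (Set.notMem_empty f))
  have hUL : Av (M ++ L) Uc := m3 _ rfl
  have hUfree : ∀ (x : E → Bool) (u : Fin s → Bool) (w w' : Fin t → Bool),
      Uc x u w = Uc x u w' := by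
    intro x u w w'
    rw [hUc]
    simp only [thr_eq]
  have hL2 := Prg.not (m2 q p1) hUL hUfree
  set nU : Fn E s t := fun x u w => !(Uc x u w) with hnU
  set L2 := nU :: (M ++ L) with hL2'
  have hL2T : ∀ f ∈ T ∪ {nU}, Av L2 f := by
    rintro f (hf | hf)
    · exact ((hLT f hf).right M).mono fun _ h => List.mem_cons_of_mem _ h
    · rw [Set.mem_singleton_iff.1 hf]
      exact Av.head _ _
  -- correctness of the check
  have hok : ∀ x u w, Lc x u w = true ∧ Uc x u w = false →
      l.countP (fun e => x e) / 2 ^ q = wnum u := by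
    rintro x u w ⟨h1, h2⟩
    rw [hLc] at h1
    simp only [List.any_eq_true, Bool.and_eq_true, decide_eq_true_eq, thr_eq] at h1
    obtain ⟨c, hc, h3, h4⟩ := h1
    have h5 : ¬ (c + 1) * 2 ^ q ≤ l.countP (fun e => x e) := by
      intro h5
      have h6 : Uc x u w = true := by
        rw [hUc]
        simp only [List.any_eq_true, Bool.and_eq_true, decide_eq_true_eq, thr_eq]
        exact ⟨c, hc, h3, h5⟩
      rw [h6] at h2
      cases h2
    rw [h3]
    rw [← Nat.le_div_iff_mul_le (by positivity)] at h4 h5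
    omega
  have hnegok : ∀ x u w, (Lc x u w = true ∧ Uc x u w = false) →
      ∀ e, neg e x u w = !(x e) := by
    intro x u w h e
    have h1 := ind_eq q l N (w := w) (hW x) (hok x u w h) q le_rfl
    have h2 := hWe x e
    have h3 := hW x
    rw [hneg]
    simp only [h1, thr_eq, Nat.sub_self, pow_zero, Nat.div_one]
    rw [Bool.eq_iff_iff, List.any_eq_true]
    simp only [Bool.and_eq_true, decide_eq_true_eq, Bool.not_eq_true']
    constructor
    · rintro ⟨c, _, h4, h5⟩
      cases hx : x e with
      | false => rfl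
      | true =>
        rw [hx] at h2
        simp only [Bool.toNat_true] at h2
        omega
    · intro hx
      rw [hx] at h2
      simp only [Bool.toNat_false, add_zero] at h2
      exact ⟨_, List.mem_range.2 (by omega), rfl, by omega⟩
  -- simulation
  set NS : Set (Fn E s t) := {f | ∃ e ∈ l, f ∈ ({neg e} : Set (Fn E s t))} with hNS
  have mNS : Makes (T ∪ {nU}) (N * ((N + 1) * 2)) NS := by
    have := Makes.list (S := T ∪ {nU}) (K := (N + 1) * 2)
      (T := fun e => ({neg e} : Set (Fn E s t))) l (fun e _ => mneg {nU} e)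
    rw [hlen] at this
    exact this
  obtain ⟨P, Q, r1, r2⟩ := rail (T ∪ {nU} ∪ NS) neg
    (fun e => Or.inr ⟨e, hmem e, rfl⟩) (fun x u w => Lc x u w = true ∧ Uc x u w = false) hnegok
    D.gates
  obtain ⟨Pa, Qa, a1, -, a3⟩ := r2 D.out
  set PQ : Set (Fn E s t) := {f | ∃ n, f = P n ∨ f = Q n} with hPQ
  have b1 : Makes (T ∪ {nU}) (N * ((N + 1) * 2) + 2 * D.gates.length) (NS ∪ PQ) :=
    mNS.trans r1
  have b2 : Makes (T ∪ {nU} ∪ (NS ∪ PQ)) (0 + ((N + 1) * 2 + 0 + 1) + 1)
      {fun x u w => Pa x u w && (Lc x u w && nU x u w)} := by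
    refine Makes.and (K := 0) (K' := (N + 1) * 2 + 0 + 1) ?_
      (Makes.and (K := (N + 1) * 2) (K' := 0) ?_ ?_)
    · exact a1.base (by rw [Set.union_assoc])
    · exact (mLc {nU}).base Set.subset_union_left
    · apply Makes.of_mem
      intro f hf
      rw [Set.mem_singleton_iff.1 hf]
      exact Or.inl (Or.inr rfl)
  obtain ⟨M', n1, n2, n3⟩ := (b1.trans b2) L2 hL2T
  have hres : Av (M' ++ L2) (fun x u w => Pa x u w && (Lc x u w && nU x u w)) := n3 _ (Or.inr rfl)
  obtain ⟨C, c1, c2, c4, c3⟩ := conv_circ (n2 _ hL2) hres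
  refine ⟨C, c2, c4, ?_, fun x => ?_⟩
  · rw [c1, List.length_append, hL2', List.length_cons, List.length_append]
    have e1 : M'.length + (M.length + L.length + 1) ≤ 2 * D.gates.length +
        (N * ((N + 1) * 2) + (0 + ((N + 1) * 2 + 0 + 1) + 1) + (N + 1) * 2 +
          (2 * N * (N + 1) ^ 2 + q * (4 * (N + 1))) + 1) := by omega
    refine e1.trans (Nat.add_le_add_left ?_ _)
    have e2 : 1 ≤ N + (q + 1) := by omega
    nlinarith [Nat.zero_le (N * q), Nat.zero_le (N ^ 2 * q), Nat.zero_le (N * q ^ 2),
      Nat.zero_le (q ^ 3), Nat.zero_le (q ^ 2), Nat.zero_le (N ^ 2), Nat.zero_le (N ^ 3)]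
  · rw [c3]
    constructor
    · rintro ⟨u, w, hu⟩
      simp only [Bool.and_eq_true, hnU, Bool.not_eq_true'] at hu
      obtain ⟨h1, h2, h3⟩ := hu
      refine ⟨Fin.elim0, w, ?_⟩
      rw [← (a3 x u w ⟨h2, h3⟩).1]
      exact h1
    · rintro ⟨u', w, hD⟩
      have hu' : u' = Fin.elim0 := funext fun i => i.elim0
      rw [hu'] at hD
      set W := l.countP (fun e => x e) with hWd
      have hWN := hW x
      have h1 : W / 2 ^ q < 2 ^ s := by
        rw [Nat.div_lt_iff_lt_mul (by positivity), ← pow_add]
        exact lt_of_le_of_lt hWN hN'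
      obtain ⟨u, hu⟩ := wnum_surj h1
      have h2 := Nat.div_le_self W (2 ^ q)
      have hL : Lc x u w = true := by
        rw [hLc]
        simp only [List.any_eq_true, Bool.and_eq_true, decide_eq_true_eq, thr_eq, ← hWd]
        exact ⟨W / 2 ^ q, List.mem_range.2 (by omega), hu, Nat.div_mul_le_self _ _⟩
      have hU : Uc x u w = false := by
        rw [← Bool.not_eq_true, hUc]
        simp only [List.any_eq_true, Bool.and_eq_true, decide_eq_true_eq, thr_eq, ← hWd, hu]
        rintro ⟨c, _, h3, h4⟩
        rw [← h3, ← Nat.le_div_iff_mul_le (by positivity)] at h4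
        omega
      refine ⟨u, w, ?_⟩
      simp only [hnU, hL, hU, (a3 x u w ⟨hL, hU⟩).1, hD, Bool.not_false, Bool.and_self]

end Pool.Agent.NegLim
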