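import Pool.Agent.NegLim.Transfer

/-!
The lower bound for nondeterministic circuits with few negations, from the windows in the graph
property `nis`.
-/

set_option autoImplicit false

namespace Pool.Agent.NegLim

open Finset

/-- The interface: many variable-disjoint hard blocks in the property `nis`. -/
def Windows (ε : ℝ) : Prop := ∃ δ > (0 : ℝ), ∃ v₀ : ℕ, ∀ v ≥ v₀, ∃ (m : ℕ) (B : Fin m → Edge v → Bool),
  (v : ℝ) ^ (2 - ε) ≤ m ∧
  (∀ i j e, B i e = true → B j e = true → i = j) ∧
  (∀ x : Edge v → Bool, (∀ e, (∀ i, B i e = false) → x e = true) →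
    (nis v ⌊(v : ℝ) ^ δ⌋₊ x = true ↔
      ∀ i, nis v ⌊(v : ℝ) ^ δ⌋₊ (fun e => !(B i e) || x e) = true)) ∧
  ∀ i T, MonSize (fun x => nis v ⌊(v : ℝ) ^ δ⌋₊ (fun e => !(B i e) || x e)) T →
    (2 : ℝ) ^ ((v : ℝ) ^ δ) ≤ T

lemma nis_top {v k : ℕ} (hk : 2 ≤ k) : nis v k (fun _ => true) = true := by
  unfold nis
  rw [decide_eq_true_iff]
  intro S hS
  obtain ⟨a, ha, b, hb, hab⟩ := Finset.one_lt_card.1 (by omega : 1 < S.card)
  rcases lt_or_gt_of_ne hab with h | h
  · exact ⟨⟨(a, b), h⟩, ha, hb, rfl⟩
  · exact ⟨⟨(b, a), h⟩, hb, ha, rfl⟩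

/-- One window without a small monotone circuit. -/
lemma exists_window {v k m s t : ℕ} (hk : 2 ≤ k) (B : Fin m → Edge v → Bool)
    (hB : ∀ i j e, B i e = true → B j e = true → i = j)
    (hnis : ∀ x : Edge v → Bool, (∀ e, (∀ i, B i e = false) → x e = true) →
      (nis v k x = true ↔ ∀ i, nis v k (fun e => !(B i e) || x e) = true))
    (C : NCirc (Edge v) s t) (hC : ∀ x, C.Acc x ↔ nis v k x = true) (hN : C.NotsFree)
    (hr : 2 ^ s * (2 ^ C.nots - 1) < m) :
    ∃ i, MonSize (fun x => nis v k (fun e => !(B i e) || x e))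
      (2 ^ (s + t) * (C.gates.length + 2)) := by
  obtain ⟨A, hA, h⟩ := transfer_and (fun i => {e | B i e = true})
    (fun i j hij => Set.disjoint_left.2 fun e h1 h2 => hij (hB i j e h1 h2)) (fun _ => true)
    (fun i x => nis v k (fun e => !(B i e) || x e)) (by
      intro i x x' hx
      congr 1
      funext e
      cases hb : B i e with
      | false => rfl
      | true => rw [hx e hb])
    (by
      intro i
      have : (fun e => !(B i e) || true) = fun _ : Edge v => true := by
        funext e; simp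
      simp only [this]
      exact nis_top hk) C hN (by
      intro x hx
      rw [hC, hnis x fun e he => hx e fun i h => ?_]
      have h1 : B i e = true := h
      rw [he i] at h1
      cases h1)
  obtain ⟨i, hi⟩ : ∃ i, i ∉ A := by
    by_contra hcon
    push Not at hcon
    have h1 : (univ : Finset (Fin m)) ⊆ A := fun i _ => hcon i
    have h2 := Finset.card_le_card h1
    rw [Finset.card_univ, Fintype.card_fin] at h2
    omega
  exact ⟨i, h i hi⟩

end Pool.Agent.NegLim
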