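import Pool.Agent.NegLim.Defs

/-!
Basic lemmas on circuits with guessed outputs of the NOT gates (Markov's argument).
-/

set_option autoImplicit false

namespace Pool.Agent.NegLim

variable {E : Type} {s t : ℕ}

/-! ### values -/

lemma vals_concat (C : List (Gate E s t)) (g : Gate E s t) (x : E → Bool) (u : Fin s → Bool)
    (w : Fin t → Bool) :
    vals (C ++ [g]) x u w = vals C x u w ++ [g.val x u w (vals C x u w)] := by
  simp [vals, List.foldl_append]

lemma vals_length (C : List (Gate E s t)) (x : E → Bool) (u : Fin s → Bool)
    (w : Fin t → Bool) : (vals C x u w).length = C.length := by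
  induction C using List.reverseRecOn with
  | nil => rfl
  | append_singleton C g ih => rw [vals_concat, List.length_append, List.length_append, ih]; rfl

/-- Comparison of lists of values. -/
def Le (l l' : List Bool) : Prop := ∀ n, l.getD n false = true → l'.getD n false = true

lemma getD_concat (l : List Bool) (b : Bool) (n : ℕ) :
    (l ++ [b]).getD n false = if n = l.length then b else l.getD n false := by
  rcases lt_trichotomy n l.length with h | h | h
  · rw [if_neg h.ne, List.getD_append _ _ _ _ h]
  · subst h
    rw [if_pos rfl, List.getD_append_right _ _ _ _ le_rfl]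
    simp
  · rw [if_neg h.ne', List.getD_append_right _ _ _ _ h.le]
    rw [List.getD_eq_default, List.getD_eq_default]
    · exact h.le
    · simp only [List.length_singleton]; omega

lemma Le.concat {l l' : List Bool} {b b' : Bool} (h : Le l l') (hl : l.length = l'.length)
    (hb : b = true → b' = true) : Le (l ++ [b]) (l' ++ [b']) := by
  intro n
  rw [getD_concat, getD_concat, ← hl]
  split_ifs
  · exact hb
  · exact h n

lemma Wire.val_mono {x x' : E → Bool} {u : Fin s → Bool} {w : Fin t → Bool} {l l' : List Bool}
    (hx : ∀ e, x e = true → x' e = true) (hl : Le l l') (a : Wire E s t) :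
    a.val x u w l = true → a.val x' u w l' = true := by
  cases a with
  | inp e => exact hx e
  | wit φ => exact id
  | gate n => exact hl n

lemma Gate.val_mono {x x' : E → Bool} {u : Fin s → Bool} {w : Fin t → Bool} {l l' : List Bool}
    (hx : ∀ e, x e = true → x' e = true) (hl : Le l l') (g : Gate E s t) (hg : g.isNot = false) :
    g.val x u w l = true → g.val x' u w l' = true := by
  cases g with
  | and a b =>
    simp only [Gate.val, Bool.and_eq_true]
    exact fun h => ⟨Wire.val_mono hx hl a h.1, Wire.val_mono hx hl b h.2⟩
  | or a b =>
    simp only [Gate.val, Bool.or_eq_true]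
    exact fun h => h.imp (Wire.val_mono hx hl a) (Wire.val_mono hx hl b)
  | not a => simp [Gate.isNot] at hg

/-! ### the number of the vector of the outputs of the NOT gates -/

/-- The values, and the vector of the outputs of the NOT gates, read as a binary number. -/
def run (C : List (Gate E s t)) (x : E → Bool) (u : Fin s → Bool) (w : Fin t → Bool) :
    List Bool × ℕ :=
  C.foldl (fun p g => (p.1 ++ [g.val x u w p.1],
    if g.isNot then 2 * p.2 + (g.val x u w p.1).toNat else p.2)) ([], 0)

/-- The vector of the outputs of the NOT gates, read as a binary number. -/
def num (C : List (Gate E s t)) (x : E → Bool) (u : Fin s → Bool) (w : Fin t → Bool) : ℕ :=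
  (run C x u w).2

lemma run_fst (C : List (Gate E s t)) (x : E → Bool) (u : Fin s → Bool) (w : Fin t → Bool) :
    (run C x u w).1 = vals C x u w := by
  induction C using List.reverseRecOn with
  | nil => rfl
  | append_singleton C g ih =>
    rw [vals_concat, ← ih]
    simp [run, List.foldl_append]

lemma num_concat (C : List (Gate E s t)) (g : Gate E s t) (x : E → Bool) (u : Fin s → Bool)
    (w : Fin t → Bool) : num (C ++ [g]) x u w =
      if g.isNot then 2 * num C x u w + (g.val x u w (vals C x u w)).toNat else num C x u w := by
  rw [← run_fst]
  unfold num run
  rw [List.foldl_append]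
  rfl

lemma num_lt (C : List (Gate E s t)) (x : E → Bool) (u : Fin s → Bool) (w : Fin t → Bool) :
    num C x u w < 2 ^ C.countP Gate.isNot := by
  induction C using List.reverseRecOn with
  | nil => simp [num, run]
  | append_singleton C g ih =>
    rw [num_concat, List.countP_append]
    cases hg : g.isNot with
    | false => simpa [hg] using ih
    | true =>
      have h1 : (g.val x u w (vals C x u w)).toNat ≤ 1 := Bool.toNat_le _
      simp only [if_true, List.countP_singleton, hg]
      rw [pow_succ]
      omega

/-- Markov's argument: if the input grows then the number of the vector of the outputs of the NOT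
gates decreases, or it does not change and then the values of all gates grow. -/
lemma markov (C : List (Gate E s t)) {x x' : E → Bool} (u : Fin s → Bool) (w : Fin t → Bool)
    (hx : ∀ e, x e = true → x' e = true) :
    num C x' u w < num C x u w ∨
      (num C x' u w = num C x u w ∧ Le (vals C x u w) (vals C x' u w)) := by
  induction C using List.reverseRecOn with
  | nil => right; exact ⟨rfl, fun _ h => h⟩
  | append_singleton C g ih =>
    rw [num_concat, num_concat, vals_concat, vals_concat]
    have hlen : (vals C x u w).length = (vals C x' u w).length := by
      rw [vals_length, vals_length]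
    cases hg : g.isNot with
    | false =>
      simp only [Bool.false_eq_true, if_false]
      rcases ih with h | ⟨h, h'⟩
      · exact Or.inl h
      · exact Or.inr ⟨h, h'.concat hlen (Gate.val_mono hx h' g hg)⟩
    | true =>
      simp only [if_true]
      have h1 : (g.val x' u w (vals C x' u w)).toNat ≤ 1 := Bool.toNat_le _
      rcases ih with h | ⟨h, h'⟩
      · left; omega
      · obtain ⟨a, rfl⟩ : ∃ a, g = Gate.not a := by
          cases g with
          | and a b => simp [Gate.isNot] at hg
          | or a b => simp [Gate.isNot] at hg
          | not a => exact ⟨a, rfl⟩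
        have h2 := Wire.val_mono (u := u) (w := w) hx h' a
        simp only [Gate.val] at h1 ⊢
        cases hb : a.val x u w (vals C x u w) with
        | false =>
          cases hb' : a.val x' u w (vals C x' u w) with
          | false =>
            right
            refine ⟨by simp [h], h'.concat hlen id⟩
          | true => left; simp [h]
        | true =>
          rw [h2 hb]
          right
          exact ⟨by simp [h], h'.concat hlen id⟩

lemma num_le (C : List (Gate E s t)) {x x' : E → Bool} (u : Fin s → Bool) (w : Fin t → Bool)
    (hx : ∀ e, x e = true → x' e = true) : num C x' u w ≤ num C x u w := by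
  rcases markov C u w hx with h | h
  · exact h.le
  · exact h.1.le

/-- The number determines the outputs of the NOT gates. -/
lemma num_inj (C : List (Gate E s t)) {x x' : E → Bool} {u : Fin s → Bool} {w : Fin t → Bool}
    (h : num C x u w = num C x' u w) : ∀ n : ℕ, (∃ a, C[n]? = some (Gate.not a)) →
      (vals C x u w)[n]? = (vals C x' u w)[n]? := by
  induction C using List.reverseRecOn with
  | nil => intro n h; simp at h
  | append_singleton C g ih =>
    rw [num_concat, num_concat] at h
    intro n hn
    have hlen : (vals C x u w).length = C.length := vals_length ..
    have hlen' : (vals C x' u w).length = C.length := vals_length ..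
    have key : num C x u w = num C x' u w ∧
        (g.isNot = true → g.val x u w (vals C x u w) = g.val x' u w (vals C x' u w)) := by
      cases hg : g.isNot with
      | false => simp only [hg, Bool.false_eq_true, if_false] at h; exact ⟨h, by simp⟩
      | true =>
        simp only [hg, if_true] at h
        cases hb : g.val x u w (vals C x u w) <;> cases hb' : g.val x' u w (vals C x' u w) <;>
          simp only [hb, hb', Bool.toNat_true, Bool.toNat_false] at h <;>
          first | omega | exact ⟨by omega, fun _ => rfl⟩
    rw [vals_concat, vals_concat]
    rcases lt_trichotomy n C.length with h1 | h1 | h1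
    · rw [List.getElem?_append_left (by omega), List.getElem?_append_left (by omega)]
      refine ih key.1 n ?_
      obtain ⟨a, ha⟩ := hn
      rw [List.getElem?_append_left h1] at ha
      exact ⟨a, ha⟩
    · subst h1
      obtain ⟨a, ha⟩ := hn
      rw [List.getElem?_append_right le_rfl] at ha
      simp only [Nat.sub_self, List.getElem?_cons_zero, Option.some.injEq] at ha
      subst ha
      rw [List.getElem?_append_right (by omega), List.getElem?_append_right (by omega),
        hlen, hlen', key.2 rfl]
    · obtain ⟨a, ha⟩ := hn
      rw [List.getElem?_eq_none (by simp; omega)] at ha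
      cases ha

/-! ### guesses -/

/-- The outputs of the gates if the NOT gate number `n` outputs `z n`. -/
def gvals (z : ℕ → Bool) (C : List (Gate E s t)) (x : E → Bool) (u : Fin s → Bool)
    (w : Fin t → Bool) : List Bool :=
  C.foldl (fun l g => l ++ [if g.isNot then z l.length else g.val x u w l]) []

lemma gvals_length (z : ℕ → Bool) (C : List (Gate E s t)) (x : E → Bool) (u : Fin s → Bool)
    (w : Fin t → Bool) : (gvals z C x u w).length = C.length := by
  induction C using List.reverseRecOn with
  | nil => rfl
  | append_singleton C g ih =>
    unfold gvals at ih ⊢
    rw [List.foldl_append]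
    simp only [List.foldl_cons, List.foldl_nil, List.length_append, List.length_singleton]
    rw [ih]

lemma gvals_concat (z : ℕ → Bool) (C : List (Gate E s t)) (g : Gate E s t) (x : E → Bool)
    (u : Fin s → Bool) (w : Fin t → Bool) :
    gvals z (C ++ [g]) x u w = gvals z C x u w ++
      [if g.isNot then z C.length else g.val x u w (gvals z C x u w)] := by
  rw [← gvals_length z C x u w]
  unfold gvals
  rw [List.foldl_append]
  rfl

lemma gvals_mono (z : ℕ → Bool) (C : List (Gate E s t)) {x x' : E → Bool} (u : Fin s → Bool)
    (w : Fin t → Bool) (hx : ∀ e, x e = true → x' e = true) :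
    Le (gvals z C x u w) (gvals z C x' u w) := by
  induction C using List.reverseRecOn with
  | nil => exact fun _ h => h
  | append_singleton C g ih =>
    rw [gvals_concat, gvals_concat]
    refine ih.concat (by rw [gvals_length, gvals_length]) ?_
    cases hg : g.isNot with
    | false =>
      simp only [Bool.false_eq_true, if_false]
      exact Gate.val_mono hx ih g hg
    | true => exact id

/-- The guesses `z` are right. -/
def Good (z : ℕ → Bool) (C : List (Gate E s t)) (x : E → Bool) (u : Fin s → Bool)
    (w : Fin t → Bool) : Prop :=
  ∀ n : ℕ, (∃ a, C[n]? = some (Gate.not a)) → (vals C x u w)[n]? = some (z n)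

lemma Good.left {z : ℕ → Bool} {C : List (Gate E s t)} {g : Gate E s t} {x : E → Bool}
    {u : Fin s → Bool} {w : Fin t → Bool} (h : Good z (C ++ [g]) x u w) : Good z C x u w := by
  intro n hn
  have hlt : n < C.length := by
    obtain ⟨a, ha⟩ := hn
    exact (List.getElem?_eq_some_iff.1 ha).1
  have h1 := h n (by
    obtain ⟨a, ha⟩ := hn
    exact ⟨a, by rw [List.getElem?_append_left hlt]; exact ha⟩)
  rw [vals_concat, List.getElem?_append_left (by rw [vals_length]; exact hlt)] at h1
  exact h1

lemma Good.last {z : ℕ → Bool} {C : List (Gate E s t)} {a : Wire E s t} {x : E → Bool}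
    {u : Fin s → Bool} {w : Fin t → Bool} (h : Good z (C ++ [Gate.not a]) x u w) :
    z C.length = !(a.val x u w (vals C x u w)) := by
  have h1 := h C.length ⟨a, by simp⟩
  rw [vals_concat, List.getElem?_append_right (by rw [vals_length]), vals_length] at h1
  simp only [Nat.sub_self, List.getElem?_cons_zero, Option.some.injEq] at h1
  exact h1.symm

lemma Good.gvals {z : ℕ → Bool} {C : List (Gate E s t)} {x : E → Bool}
    {u : Fin s → Bool} {w : Fin t → Bool} (h : Good z C x u w) :
    gvals z C x u w = vals C x u w := by
  induction C using List.reverseRecOn with
  | nil => rfl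
  | append_singleton C g ih =>
    rw [gvals_concat, vals_concat, ih h.left]
    cases g with
    | and a b => rfl
    | or a b => rfl
    | not a => rw [h.last]; rfl

end Pool.Agent.NegLim
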