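import Pool.Agent.NegLim.Up

/-!
The upper bound: `s` witness bits and `r` NOT gates with `N + 1 ≤ 2 ^ (s + r - 1)` simulate every
circuit with `N` input bits. The witness is a guess of the leading bits of the number of ones of
the input, the other bits are computed with one NOT gate each, and one NOT gate checks the guess.
-/

set_option autoImplicit false

namespace Pool.Agent.NegLim

variable {E : Type} {s t : ℕ}

lemma thr_large {l : List E} {a : ℕ} (h : l.length < a) :
    (thr l a : Fn E s t) = fun _ _ _ => false := by
  funext x u w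
  rw [thr_eq]
  have h1 := List.countP_le_length (p := fun e => x e) (l := l)
  simp only [decide_eq_false_iff_not, not_le]
  omega

lemma makes_thr_all (S : Set (Fn E s t)) (l : List E) :
    Makes S (l.length * (2 * (l.length + 1))) {f | ∃ a, f = thr l a} := by
  have h1 := (makes_thr S l.length l).union (Makes.wit S fun _ _ => false)
  refine h1.subset ?_
  rintro f ⟨a, rfl⟩
  rcases le_or_gt a l.length with h | h
  · exact Or.inl ⟨a, h, rfl⟩
  · right
    rw [Set.mem_singleton_iff]
    exact thr_large h

/-- A numbering of the witnesses. -/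
noncomputable def wnum (u : Fin s → Bool) : ℕ :=
  (Fintype.equivFinOfCardEq (α := Fin s → Bool) (n := 2 ^ s) (by simp) u : ℕ)

lemma wnum_surj {a : ℕ} (h : a < 2 ^ s) : ∃ u : Fin s → Bool, wnum u = a :=
  ⟨(Fintype.equivFinOfCardEq (α := Fin s → Bool) (n := 2 ^ s) (by simp)).symm ⟨a, h⟩,
    by simp [wnum]⟩

section bits

variable (q : ℕ) (l : List E) (A : ℕ)

/-- The next bit of the number of ones. -/
def nextBit (F : ℕ → Fn E s t) (i : ℕ) : Fn E s t := fun x u w =>
  (List.range (A + 1)).any fun c => F c x u w && thr l ((2 * c + 1) * 2 ^ (q - (i + 1))) x u w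

/-- The indicators of the blocks which contain the number of ones. -/
noncomputable def ind : ℕ → ℕ → Fn E s t
  | 0, c => fun _ u _ => decide (wnum u = c)
  | i + 1, c => fun x u w => ind i (c / 2) x u w &&
      (if c % 2 = 0 then !(nextBit q l A (ind i) i x u w) else nextBit q l A (ind i) i x u w)

lemma ind_eq {x : E → Bool} {u : Fin s → Bool} {w : Fin t → Bool} (hA : l.countP (fun e => x e) ≤ A)
    (hu : l.countP (fun e => x e) / 2 ^ q = wnum u) : ∀ i ≤ q, ∀ c,
    ind q l A i c x u w = decide (l.countP (fun e => x e) / 2 ^ (q - i) = c) := by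
  intro i
  induction i with
  | zero =>
    intro _ c
    simp only [ind, Nat.sub_zero, hu]
  | succ i ih =>
    intro hi c
    have ih := ih (by omega)
    set W := l.countP (fun e => x e) with hW
    have hk : q - i = (q - (i + 1)) + 1 := by omega
    have hdiv : W / 2 ^ (q - i) = W / 2 ^ (q - (i + 1)) / 2 := by
      rw [hk, pow_succ, Nat.div_div_eq_div_mul]
    have hbit : nextBit q l A (ind q l A i) i x u w =
        decide (W / 2 ^ (q - (i + 1)) % 2 = 1) := by
      unfold nextBit
      rw [Bool.eq_iff_iff, List.any_eq_true]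
      simp only [Bool.and_eq_true, decide_eq_true_eq, ih, thr_eq, ← hW]
      constructor
      · rintro ⟨c', _, h1, h2⟩
        rw [← Nat.le_div_iff_mul_le (by positivity)] at h2
        rw [hdiv] at h1
        omega
      · intro h
        refine ⟨W / 2 ^ (q - i), List.mem_range.2 ?_, rfl, ?_⟩
        · have := Nat.div_le_self W (2 ^ (q - i))
          omega
        · rw [← Nat.le_div_iff_mul_le (by positivity), hdiv]
          omega
    simp only [ind, ih, hbit, hdiv]
    rw [Bool.eq_iff_iff]
    split_ifs with h
    · simp only [Bool.and_eq_true, decide_eq_true_eq, Bool.not_eq_true', decide_eq_false_iff_not]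
      omega
    · simp only [Bool.and_eq_true, decide_eq_true_eq]
      omega

lemma thr_free (l : List E) (a : ℕ) (x : E → Bool) (u : Fin s → Bool)
    (w w' : Fin t → Bool) : thr l a x u w = thr l a x u w' := by
  rw [thr_eq, thr_eq]

lemma ind_free (i : ℕ) : ∀ (c : ℕ) (x : E → Bool) (u : Fin s → Bool) (w w' : Fin t → Bool),
    ind q l A i c x u w = ind q l A i c x u w' := by
  induction i with
  | zero => intro c x u w w'; rfl
  | succ i ih =>
    intro c x u w w'
    have h : nextBit q l A (ind q l A i) i x u w = nextBit q l A (ind q l A i) i x u w' := by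
      unfold nextBit
      simp only [thr_eq, ih _ x u w w']
    simp only [ind, ih _ x u w w', h]

lemma nextBit_free (i : ℕ) (x : E → Bool) (u : Fin s → Bool) (w w' : Fin t → Bool) :
    nextBit q l A (ind q l A i) i x u w = nextBit q l A (ind q l A i) i x u w' := by
  unfold nextBit
  simp only [thr_eq, ind_free q l A i _ x u w w']

/-- The program for the indicators. -/
lemma prg_ind {S : Set (Fn E s t)} (hS : ∀ a, (thr l a : Fn E s t) ∈ S) {K : ℕ}
    (h0 : Makes (∅ : Set (Fn E s t)) K S) (i : ℕ) : ∃ L : List (Fn E s t), Prg L i ∧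
      L.length ≤ K + i * (4 * (A + 1)) ∧ (∀ f ∈ S, Av L f) ∧
      ∀ c ≤ A, Av L (ind q l A i c) := by
  induction i with
  | zero =>
    obtain ⟨M, h1, h2, h3⟩ := h0 [] (by simp)
    refine ⟨M ++ [], h2 0 Prg.nil, by simpa using h1, h3, fun c _ => ?_⟩
    exact Or.inr (Or.inr ⟨fun u _ => decide (wnum u = c), rfl⟩)
  | succ i ih =>
    obtain ⟨L, h1, h2, h3, h4⟩ := ih
    set T : Set (Fn E s t) := {f | ∃ c ≤ A, f = ind q l A i c} with hT
    have hL : ∀ f ∈ S ∪ T, Av L f := by
      rintro f (hf | ⟨c, hc, rfl⟩)
      · exact h3 f hf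
      · exact h4 c hc
    have hmem : ∀ f ∈ S ∪ T, Makes (S ∪ T) 0 {f} := fun f hf =>
      Makes.of_mem (by simpa using hf)
    have hbit : Makes (S ∪ T) ((A + 1) * 2) {nextBit q l A (ind q l A i) i} := by
      have := Makes.any (S := S ∪ T) (K := 1)
        (F := fun c x u w => ind q l A i c x u w &&
          thr l ((2 * c + 1) * 2 ^ (q - (i + 1))) x u w) (List.range (A + 1)) (by
          intro c hc
          have hc' := List.mem_range.1 hc
          exact (hmem _ (Or.inr ⟨c, by omega, rfl⟩)).and (hmem _ (Or.inl (hS _))))
      rw [List.length_range] at this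
      exact this
    obtain ⟨M, m1, m2, m3⟩ := hbit L hL
    have hb : Av (M ++ L) (nextBit q l A (ind q l A i) i) := m3 _ rfl
    have hL2 := Prg.not (m2 i h1) hb (nextBit_free q l A i)
    set L2 := (fun x u w => !(nextBit q l A (ind q l A i) i x u w)) :: (M ++ L) with hL2'
    have hsub : ∀ f, Av L f → Av L2 f := fun f hf =>
      (hf.right M).mono fun _ h => List.mem_cons_of_mem _ h
    have hnew : Makes (T ∪ {nextBit q l A (ind q l A i) i,
        fun x u w => !(nextBit q l A (ind q l A i) i x u w)}) ((A + 1) * 1)
        {f | ∃ c ∈ List.range (A + 1), f ∈ ({ind q l A (i + 1) c} : Set (Fn E s t))} := by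
      have := Makes.list (S := T ∪ {nextBit q l A (ind q l A i) i,
        fun x u w => !(nextBit q l A (ind q l A i) i x u w)}) (K := 1)
        (T := fun c => ({ind q l A (i + 1) c} : Set (Fn E s t))) (List.range (A + 1)) (by
          intro c hc
          have hc' := List.mem_range.1 hc
          have e1 : Makes (T ∪ {nextBit q l A (ind q l A i) i,
              fun x u w => !(nextBit q l A (ind q l A i) i x u w)}) 0 {ind q l A i (c / 2)} := by
            apply Makes.of_mem
            intro f hf
            rw [Set.mem_singleton_iff.1 hf]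
            exact Or.inl ⟨c / 2, by omega, rfl⟩
          by_cases h : c % 2 = 0
          · have e2 : Makes (T ∪ {nextBit q l A (ind q l A i) i,
                fun x u w => !(nextBit q l A (ind q l A i) i x u w)}) 0
                {fun x u w => !(nextBit q l A (ind q l A i) i x u w)} := by
              apply Makes.of_mem
              intro f hf
              rw [Set.mem_singleton_iff.1 hf]
              exact Or.inr (Or.inr rfl)
            have e3 : (ind q l A (i + 1) c : Fn E s t) = fun x u w =>
                ind q l A i (c / 2) x u w && !(nextBit q l A (ind q l A i) i x u w) := by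
              funext x u w
              simp only [ind, h, if_true]
            rw [e3]
            exact e1.and e2
          · have e2 : Makes (T ∪ {nextBit q l A (ind q l A i) i,
                fun x u w => !(nextBit q l A (ind q l A i) i x u w)}) 0
                {nextBit q l A (ind q l A i) i} := by
              apply Makes.of_mem
              intro f hf
              rw [Set.mem_singleton_iff.1 hf]
              exact Or.inr (Or.inl rfl)
            have e3 : (ind q l A (i + 1) c : Fn E s t) = fun x u w =>
                ind q l A i (c / 2) x u w && nextBit q l A (ind q l A i) i x u w := by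
              funext x u w
              simp only [ind, h, if_false]
            rw [e3]
            exact e1.and e2)
      rw [List.length_range] at this
      exact this
    obtain ⟨M', n1, n2, n3⟩ := hnew L2 (by
      rintro f (⟨c, hc, rfl⟩ | hf)
      · exact hsub _ (h4 c hc)
      · rcases hf with rfl | hf
        · exact hb.mono fun _ h => List.mem_cons_of_mem _ h
        · rw [Set.mem_singleton_iff.1 hf]
          exact Av.head _ _)
    refine ⟨M' ++ L2, n2 _ hL2, ?_, fun f hf => (hsub f (h3 f hf)).right M', fun c hc => ?_⟩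
    · rw [List.length_append, hL2', List.length_cons, List.length_append]
      have : (i + 1) * (4 * (A + 1)) = i * (4 * (A + 1)) + 4 * (A + 1) := by ring
      omega
    · exact n3 _ ⟨c, List.mem_range.2 (by omega), rfl⟩

end bits

/-! ### simulation with both values of every gate -/

lemma rail (S : Set (Fn E s t)) (neg : E → Fn E s t) (hneg : ∀ e, neg e ∈ S)
    (ok : (E → Bool) → (Fin s → Bool) → (Fin t → Bool) → Prop)
    (hok : ∀ x u w, ok x u w → ∀ e, neg e x u w = !(x e)) (G : List (Gate E 0 t)) :
    ∃ P Q : ℕ → Fn E s t, Makes S (2 * G.length) {f | ∃ n, f = P n ∨ f = Q n} ∧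
      (∀ a : Wire E 0 t, ∃ Pa Qa : Fn E s t,
        Makes (S ∪ {f | ∃ n, f = P n ∨ f = Q n}) 0 {Pa} ∧
        Makes (S ∪ {f | ∃ n, f = P n ∨ f = Q n}) 0 {Qa} ∧
        ∀ x u w, ok x u w → Pa x u w = a.val x Fin.elim0 w (vals G x Fin.elim0 w) ∧
          Qa x u w = !(a.val x Fin.elim0 w (vals G x Fin.elim0 w))) := by
  have wire : ∀ (G : List (Gate E 0 t)) (P Q : ℕ → Fn E s t),
      (∀ x u w, ok x u w → ∀ n, P n x u w = (vals G x Fin.elim0 w).getD n false ∧
        Q n x u w = !((vals G x Fin.elim0 w).getD n false)) →
      ∀ a : Wire E 0 t, ∃ Pa Qa : Fn E s t,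
        Makes (S ∪ {f | ∃ n, f = P n ∨ f = Q n}) 0 {Pa} ∧
        Makes (S ∪ {f | ∃ n, f = P n ∨ f = Q n}) 0 {Qa} ∧
        ∀ x u w, ok x u w → Pa x u w = a.val x Fin.elim0 w (vals G x Fin.elim0 w) ∧
          Qa x u w = !(a.val x Fin.elim0 w (vals G x Fin.elim0 w)) := by
    intro G P Q hPQ a
    cases a with
    | inp e =>
      refine ⟨fun x _ _ => x e, neg e, Makes.inp _ e, Makes.of_mem ?_, fun x u w h => ⟨rfl, ?_⟩⟩
      · intro f hf
        rw [Set.mem_singleton_iff.1 hf]
        exact Or.inl (hneg e)
      · exact hok x u w h e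
    | wit φ =>
      exact ⟨fun _ _ w => φ Fin.elim0 w, fun _ _ w => !(φ Fin.elim0 w),
        Makes.wit _ fun _ w => φ Fin.elim0 w,
        Makes.wit _ fun _ w => !(φ Fin.elim0 w), fun x u w h => ⟨rfl, rfl⟩⟩
    | gate n =>
      refine ⟨P n, Q n, Makes.of_mem ?_, Makes.of_mem ?_, fun x u w h => hPQ x u w h n⟩
      · intro f hf
        rw [Set.mem_singleton_iff.1 hf]
        exact Or.inr ⟨n, Or.inl rfl⟩
      · intro f hf
        rw [Set.mem_singleton_iff.1 hf]
        exact Or.inr ⟨n, Or.inr rfl⟩
  have key : ∃ P Q : ℕ → Fn E s t, Makes S (2 * G.length) {f | ∃ n, f = P n ∨ f = Q n} ∧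
      ∀ x u w, ok x u w → ∀ n, P n x u w = (vals G x Fin.elim0 w).getD n false ∧
        Q n x u w = !((vals G x Fin.elim0 w).getD n false) := by
    induction G using List.reverseRecOn with
    | nil =>
      refine ⟨fun _ _ _ _ => false, fun _ _ _ _ => true, ?_, fun x u w _ n => ⟨rfl, rfl⟩⟩
      refine (((Makes.wit S fun _ _ => false).union (Makes.wit S fun _ _ => true)).le
        (by simp)).subset ?_
      rintro f ⟨n, rfl | rfl⟩
      · exact Or.inl rfl
      · exact Or.inr rfl
    | append_singleton G g ih =>
      obtain ⟨P, Q, h1, h2⟩ := ih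
      have hlen : ∀ x (w : Fin t → Bool), (vals G x Fin.elim0 w).length = G.length :=
        fun x w => vals_length G x _ w
      have hgate : ∃ Pg Qg : Fn E s t,
          Makes (S ∪ {f | ∃ n, f = P n ∨ f = Q n}) 2 {f | f = Pg ∨ f = Qg} ∧
          ∀ x u w, ok x u w →
            Pg x u w = g.val x Fin.elim0 w (vals G x Fin.elim0 w) ∧
            Qg x u w = !(g.val x Fin.elim0 w (vals G x Fin.elim0 w)) := by
        cases g with
        | and a b =>
          obtain ⟨Pa, Qa, a1, a2, a3⟩ := wire G P Q h2 a
          obtain ⟨Pb, Qb, b1, b2, b3⟩ := wire G P Q h2 b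
          refine ⟨fun x u w => Pa x u w && Pb x u w, fun x u w => Qa x u w || Qb x u w,
            (a1.and b1).union (a2.or b2), fun x u w h => ?_⟩
          simp only [Gate.val, (a3 x u w h).1, (a3 x u w h).2, (b3 x u w h).1, (b3 x u w h).2,
            Bool.not_and, and_self]
        | or a b =>
          obtain ⟨Pa, Qa, a1, a2, a3⟩ := wire G P Q h2 a
          obtain ⟨Pb, Qb, b1, b2, b3⟩ := wire G P Q h2 b
          refine ⟨fun x u w => Pa x u w || Pb x u w, fun x u w => Qa x u w && Qb x u w,
            (a1.or b1).union (a2.and b2), fun x u w h => ?_⟩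
          simp only [Gate.val, (a3 x u w h).1, (a3 x u w h).2, (b3 x u w h).1, (b3 x u w h).2,
            Bool.not_or, and_self]
        | not a =>
          obtain ⟨Pa, Qa, a1, a2, a3⟩ := wire G P Q h2 a
          refine ⟨Qa, Pa, (a2.union a1).le (by norm_num), fun x u w h => ?_⟩
          simp only [Gate.val, (a3 x u w h).1, (a3 x u w h).2, Bool.not_not, and_self]
      obtain ⟨Pg, Qg, g1, g2⟩ := hgate
      refine ⟨fun n => if n = G.length then Pg else P n,
        fun n => if n = G.length then Qg else Q n, ?_, ?_⟩
      · refine ((h1.trans g1).le (by rw [List.length_append]; simp; omega)).subset ?_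
        rintro f ⟨n, hf⟩
        by_cases hn : n = G.length
        · simp only [hn, if_true] at hf
          exact Or.inr hf
        · simp only [hn, if_false] at hf
          exact Or.inl ⟨n, hf⟩
      · intro x u w h n
        have hget : (vals (G ++ [g]) x Fin.elim0 w).getD n false =
            if n = G.length then g.val x Fin.elim0 w (vals G x Fin.elim0 w)
            else (vals G x Fin.elim0 w).getD n false := by
          rw [vals_concat]
          rcases lt_trichotomy n G.length with hn | hn | hn
          · rw [if_neg hn.ne, List.getD_append _ _ _ _ (by rw [hlen]; exact hn)]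
          · rw [if_pos hn, List.getD_append_right _ _ _ _ (by rw [hlen]; omega), hlen, hn]
            simp
          · rw [if_neg hn.ne', List.getD_append_right _ _ _ _ (by rw [hlen]; omega),
              List.getD_eq_default, List.getD_eq_default]
            · rw [hlen]; omega
            · rw [hlen]; simp only [List.length_singleton]; omega
        rw [hget]
        by_cases hn : n = G.length
        · simp only [hn, if_true]
          exact g2 x u w h
        · simp only [hn, if_false]
          exact h2 x u w h n
  obtain ⟨P, Q, h1, h2⟩ := key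
  exact ⟨P, Q, h1, wire G P Q h2⟩

end Pool.Agent.NegLim
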